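import Pool.Agent.LGroupRank.Solid

/-!
Actions on chains: evaluation of terms along finitely many points, high transitivity, and the
transitivity properties of a primitive action that is not regular.
-/

set_option autoImplicit false

namespace Pool.Agent.LGroupRank

universe u v u' v'

open MulAction

section pattern

/-- Evaluation of a term at a point of a chain only involves finitely many points, all of the
form `u • t₀` with `u` the value of a term. -/
theorem pattern {X : Type} {G : Type u} {T : Type v} [LGroup G] [LinearOrder T] [MulAction G T]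
    [LAct G T] (x : X → G) (w : LTerm X) (t₀ : T) :
    ∃ F : Finset T, t₀ ∈ F ∧ w.eval x • t₀ ∈ F ∧
      (∀ t ∈ F, ∃ r : LTerm X, t = r.eval x • t₀) ∧
      ∀ {K : Type u'} {Ω : Type v'} [LGroup K] [LinearOrder Ω] [MulAction K Ω] [LAct K Ω]
        (φ : T → Ω) (_ : ∀ s ∈ F, ∀ t ∈ F, s ≤ t → φ s ≤ φ t) (g : X → K),
        (∀ j, ∀ t ∈ F, x j • t ∈ F → g j • φ t = φ (x j • t)) →
        w.eval g • φ t₀ = φ (w.eval x • t₀) := by
  classical
  induction w generalizing t₀ with
  | var j =>
    refine ⟨{t₀, x j • t₀}, by simp, by simp [LTerm.eval], ?_, ?_⟩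
    · intro t ht
      rw [Finset.mem_insert, Finset.mem_singleton] at ht
      rcases ht with rfl | rfl
      · exact ⟨.one, by simp [LTerm.eval]⟩
      · exact ⟨.var j, by simp [LTerm.eval]⟩
    · intro K Ω _ _ _ _ φ _ g h
      exact h j t₀ (by simp) (by simp)
  | one =>
    refine ⟨{t₀}, by simp, by simp [LTerm.eval], ?_, ?_⟩
    · intro t ht
      rw [Finset.mem_singleton] at ht
      exact ⟨.one, by simp [LTerm.eval, ht]⟩
    · intro K Ω _ _ _ _ φ _ g h
      simp [LTerm.eval]
  | mul s t hs ht =>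
    obtain ⟨F₁, h1, h2, h3, h4⟩ := ht t₀
    obtain ⟨F₂, k1, k2, k3, k4⟩ := hs (t.eval x • t₀)
    refine ⟨F₁ ∪ F₂, Finset.mem_union_left _ h1, ?_, ?_, ?_⟩
    · simp only [LTerm.eval, mul_smul]
      exact Finset.mem_union_right _ k2
    · intro p hp
      rcases Finset.mem_union.mp hp with hp | hp
      · exact h3 p hp
      · obtain ⟨r, hr⟩ := k3 p hp
        exact ⟨.mul r t, by rw [hr, LTerm.eval, mul_smul]⟩
    · intro K Ω _ _ _ _ φ hφ g hg
      simp only [LTerm.eval, mul_smul]
      rw [h4 φ (fun a ha b hb => hφ a (Finset.mem_union_left _ ha) b (Finset.mem_union_left _ hb))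
        g (fun j p hp hp' => hg j p (Finset.mem_union_left _ hp) (Finset.mem_union_left _ hp'))]
      exact k4 φ (fun a ha b hb => hφ a (Finset.mem_union_right _ ha) b
        (Finset.mem_union_right _ hb))
        g (fun j p hp hp' => hg j p (Finset.mem_union_right _ hp) (Finset.mem_union_right _ hp'))
  | inv s hs =>
    obtain ⟨F, h1, h2, h3, h4⟩ := hs ((s.eval x)⁻¹ • t₀)
    rw [smul_inv_smul] at h2
    refine ⟨F, h2, h1, ?_, ?_⟩
    · intro p hp
      obtain ⟨r, hr⟩ := h3 p hp
      exact ⟨.mul r (.inv s), by rw [hr]; simp only [LTerm.eval, mul_smul]⟩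
    · intro K Ω _ _ _ _ φ hφ g hg
      have := h4 φ hφ g hg
      rw [smul_inv_smul] at this
      simp only [LTerm.eval]
      rw [← this, inv_smul_smul]
  | inf s t hs ht =>
    obtain ⟨F₁, h1, h2, h3, h4⟩ := ht t₀
    obtain ⟨F₂, k1, k2, k3, k4⟩ := hs t₀
    refine ⟨F₁ ∪ F₂, Finset.mem_union_left _ h1, ?_, ?_, ?_⟩
    · simp only [LTerm.eval, LAct.inf_smul]
      rcases min_choice (s.eval x • t₀) (t.eval x • t₀) with h | h <;> rw [h]
      · exact Finset.mem_union_right _ k2
      · exact Finset.mem_union_left _ h2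
    · intro p hp
      rcases Finset.mem_union.mp hp with hp | hp
      · exact h3 p hp
      · exact k3 p hp
    · intro K Ω _ _ _ _ φ hφ g hg
      simp only [LTerm.eval, LAct.inf_smul]
      rw [h4 φ (fun a ha b hb => hφ a (Finset.mem_union_left _ ha) b (Finset.mem_union_left _ hb))
        g (fun j p hp hp' => hg j p (Finset.mem_union_left _ hp) (Finset.mem_union_left _ hp')),
        k4 φ (fun a ha b hb => hφ a (Finset.mem_union_right _ ha) b
        (Finset.mem_union_right _ hb))
        g (fun j p hp hp' => hg j p (Finset.mem_union_right _ hp) (Finset.mem_union_right _ hp'))]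
      rcases le_total (s.eval x • t₀) (t.eval x • t₀) with h | h
      · rw [min_eq_left h, min_eq_left]
        exact hφ _ (Finset.mem_union_right _ k2) _ (Finset.mem_union_left _ h2) h
      · rw [min_eq_right h, min_eq_right]
        exact hφ _ (Finset.mem_union_left _ h2) _ (Finset.mem_union_right _ k2) h
  | sup s t hs ht =>
    obtain ⟨F₁, h1, h2, h3, h4⟩ := ht t₀
    obtain ⟨F₂, k1, k2, k3, k4⟩ := hs t₀
    refine ⟨F₁ ∪ F₂, Finset.mem_union_left _ h1, ?_, ?_, ?_⟩
    · simp only [LTerm.eval, LAct.sup_smul]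
      rcases max_choice (s.eval x • t₀) (t.eval x • t₀) with h | h <;> rw [h]
      · exact Finset.mem_union_right _ k2
      · exact Finset.mem_union_left _ h2
    · intro p hp
      rcases Finset.mem_union.mp hp with hp | hp
      · exact h3 p hp
      · exact k3 p hp
    · intro K Ω _ _ _ _ φ hφ g hg
      simp only [LTerm.eval, LAct.sup_smul]
      rw [h4 φ (fun a ha b hb => hφ a (Finset.mem_union_left _ ha) b (Finset.mem_union_left _ hb))
        g (fun j p hp hp' => hg j p (Finset.mem_union_left _ hp) (Finset.mem_union_left _ hp')),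
        k4 φ (fun a ha b hb => hφ a (Finset.mem_union_right _ ha) b
        (Finset.mem_union_right _ hb))
        g (fun j p hp hp' => hg j p (Finset.mem_union_right _ hp) (Finset.mem_union_right _ hp'))]
      rcases le_total (s.eval x • t₀) (t.eval x • t₀) with h | h
      · rw [max_eq_right h, max_eq_right]
        exact hφ _ (Finset.mem_union_right _ k2) _ (Finset.mem_union_left _ h2) h
      · rw [max_eq_left h, max_eq_left]
        exact hφ _ (Finset.mem_union_left _ h2) _ (Finset.mem_union_right _ k2) h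

end pattern

section action

variable {G : Type u} {T : Type v} [LGroup G] [LinearOrder T] [MulAction G T] [LAct G T]

theorem smul_le_iff (g : G) {x y : T} : g • x ≤ g • y ↔ x ≤ y := by
  refine ⟨fun h => ?_, LAct.smul_mono g x y⟩
  have := LAct.smul_mono g⁻¹ _ _ h
  rwa [inv_smul_smul, inv_smul_smul] at this

theorem smul_lt_iff (g : G) {x y : T} : g • x < g • y ↔ x < y := by
  rw [← not_le, ← not_le, smul_le_iff]

theorem le_smul_of_le {g h : G} (hgh : g ≤ h) (x : T) : g • x ≤ h • x := by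
  have : g ⊔ h = h := sup_eq_right.mpr hgh
  rw [← this, LAct.sup_smul]
  exact le_max_left _ _

theorem le_smul_of_one_le {g : G} (hg : 1 ≤ g) (x : T) : x ≤ g • x := by
  simpa using le_smul_of_le hg x

theorem sup_one_smul (g : G) (x : T) : (g ⊔ 1) • x = max (g • x) x := by
  rw [LAct.sup_smul, one_smul]

/-- If `γ ≤ δ ≤ h • γ` then some `g` maps `γ` to `δ`, fixes every point fixed by `h`,
and satisfies `1 ≤ g ≤ h ∨ 1`. -/
theorem exists_between [IsPretransitive G T] {h : G} {γ δ : T} (h1 : γ ≤ δ) (h2 : δ ≤ h • γ) :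
    ∃ g : G, g • γ = δ ∧ (∀ p : T, h • p = p → g • p = p) ∧ 1 ≤ g ∧ g ≤ h ⊔ 1 := by
  obtain ⟨g₀, hg₀⟩ := exists_smul_eq G γ δ
  refine ⟨(g₀ ⊓ h) ⊔ 1, ?_, ?_, le_sup_right, sup_le_sup_right inf_le_right 1⟩
  · rw [sup_one_smul, LAct.inf_smul, hg₀, min_eq_left h2, max_eq_left h1]
  · intro p hp
    rw [sup_one_smul, LAct.inf_smul, hp]
    exact max_eq_right (min_le_right _ _)

/-- `S` acts 2-transitively on `Δ` (in the ordered sense), transitively on `Δ`,
and preserves `Δ`. -/
structure TwoTrans (S : Subgroup G) (Δ : Set T) : Prop where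
  sup_mem : ∀ g ∈ S, g ⊔ 1 ∈ S
  smul_mem : ∀ g ∈ S, ∀ x ∈ Δ, g • x ∈ Δ
  trans1 : ∀ a ∈ Δ, ∀ b ∈ Δ, ∃ g ∈ S, g • a = b
  trans2 : ∀ a ∈ Δ, ∀ b ∈ Δ, ∀ c ∈ Δ, ∀ d ∈ Δ, a < b → c < d → ∃ g ∈ S, g • a = c ∧ g • b = d

theorem TwoTrans.high {S : Subgroup G} {Δ : Set T} (h : TwoTrans S Δ) (A : Finset T)
    (hA : ∀ a ∈ A, a ∈ Δ) (f : T → T) (hf : ∀ a ∈ A, f a ∈ Δ)
    (hmono : ∀ a ∈ A, ∀ b ∈ A, a < b → f a < f b) :
    ∃ g ∈ S, ∀ a ∈ A, g • a = f a := by
  classical
  induction A using Finset.induction_on_max with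
  | empty => exact ⟨1, one_mem S, by simp⟩
  | insert m A hmA ih =>
    obtain ⟨k, hkS, hk⟩ := ih (fun a ha => hA a (Finset.mem_insert_of_mem ha))
      (fun a ha => hf a (Finset.mem_insert_of_mem ha))
      (fun a ha b hb => hmono a (Finset.mem_insert_of_mem ha) b (Finset.mem_insert_of_mem hb))
    have hmΔ : m ∈ Δ := hA m (Finset.mem_insert_self _ _)
    have hfm : f m ∈ Δ := hf m (Finset.mem_insert_self _ _)
    rcases A.eq_empty_or_nonempty with rfl | hne
    · obtain ⟨g, hg, hgm⟩ := h.trans1 m hmΔ (f m) hfm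
      exact ⟨g, hg, by simpa using hgm⟩
    · -- the least and the greatest points of `A`
      set lo := A.min' hne with hlo
      set hi := A.max' hne with hhi
      have hloA : lo ∈ A := A.min'_mem hne
      have hhiA : hi ∈ A := A.max'_mem hne
      have hfle : ∀ a ∈ A, f a ≤ f hi := by
        intro a ha
        rcases (A.le_max' a ha).lt_or_eq with hlt | heq
        · exact (hmono a (Finset.mem_insert_of_mem ha) hi (Finset.mem_insert_of_mem hhiA) hlt).le
        · rw [heq]
      have hlef : ∀ a ∈ A, f lo ≤ f a := by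
        intro a ha
        rcases (A.min'_le a ha).lt_or_eq with hlt | heq
        · exact (hmono lo (Finset.mem_insert_of_mem hloA) a (Finset.mem_insert_of_mem ha) hlt).le
        · rw [← heq]
      have hfloΔ := hf lo (Finset.mem_insert_of_mem hloA)
      have hfhiΔ := hf hi (Finset.mem_insert_of_mem hhiA)
      have h1 : f hi < f m := hmono hi (Finset.mem_insert_of_mem hhiA) m
        (Finset.mem_insert_self _ _) (hmA hi hhiA)
      have h2 : f hi < k • m := by
        rw [← hk hi hhiA, smul_lt_iff]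
        exact hmA hi hhiA
      have hkm : k • m ∈ Δ := h.smul_mem k hkS m hmΔ
      -- key: for `δ < ε` above `f hi`, some element of `S` fixes all `f a` and moves `δ` to `ε`
      have key : ∀ δ ∈ Δ, ∀ ε ∈ Δ, f hi < δ → δ < ε →
          ∃ p ∈ S, (∀ a ∈ A, p • f a = f a) ∧ p • δ = ε := by
        intro δ hδ ε hε hδ1 hδε
        obtain ⟨q, hq, hq1, hq2⟩ := h.trans2 (f hi) hfhiΔ δ hδ (f lo) hfloΔ ε hε hδ1
          ((hfle lo hloA).trans_lt (hδ1.trans hδε))
        refine ⟨q ⊔ 1, h.sup_mem q hq, fun a ha => ?_, ?_⟩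
        · rw [sup_one_smul]
          refine max_eq_right ?_
          calc q • f a ≤ q • f hi := LAct.smul_mono _ _ _ (hfle a ha)
            _ = f lo := hq1
            _ ≤ f a := hlef a ha
        · rw [sup_one_smul, hq2]
          exact max_eq_left hδε.le
      rcases lt_trichotomy (k • m) (f m) with hlt | heq | hgt
      · obtain ⟨p, hp, hp1, hp2⟩ := key (k • m) hkm (f m) hfm h2 hlt
        refine ⟨p * k, mul_mem hp hkS, fun a ha => ?_⟩
        rcases Finset.mem_insert.mp ha with rfl | ha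
        · rw [mul_smul, hp2]
        · rw [mul_smul, hk a ha, hp1 a ha]
      · refine ⟨k, hkS, fun a ha => ?_⟩
        rcases Finset.mem_insert.mp ha with rfl | ha
        · exact heq
        · exact hk a ha
      · obtain ⟨p, hp, hp1, hp2⟩ := key (f m) hfm (k • m) hkm h1 hgt
        refine ⟨p⁻¹ * k, mul_mem (inv_mem hp) hkS, fun a ha => ?_⟩
        rcases Finset.mem_insert.mp ha with rfl | ha
        · rw [mul_smul, inv_smul_eq_iff, hp2]
        · rw [mul_smul, hk a ha, inv_smul_eq_iff, hp1 a ha]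

/-- A subgroup that acts 2-transitively on a set with more than one point violates every
identity that fails in some ℓ-group. -/
theorem TwoTrans.fails {S : Subgroup G} {Δ : Set T} (h : TwoTrans S Δ) {β₀ : T} (hβ₀ : β₀ ∈ Δ)
    {k₀ : G} (hk₀ : k₀ ∈ S) (hk₀' : k₀ • β₀ ≠ β₀)
    {X : Type} (p : LTerm X × LTerm X) {H : Type u'} [LGroup H] (x : X → H)
    (hx : p.1.eval x ≠ p.2.eval x) :
    ∃ (g : X → G) (δ : T), δ ∈ Δ ∧ (∀ j, g j ∈ S) ∧
      (p.1.eval g * (p.2.eval g)⁻¹) • δ ≠ δ := by
  classical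
  -- an element moving `β₀` up
  obtain ⟨k, hkS, hk⟩ : ∃ k ∈ S, β₀ < k • β₀ := by
    rcases lt_or_gt_of_ne hk₀' with hlt | hgt
    · refine ⟨k₀⁻¹, inv_mem hk₀, ?_⟩
      rw [← smul_lt_iff k₀, smul_inv_smul]
      exact hlt
    · exact ⟨k₀, hk₀, hgt⟩
  have hne : (LTerm.mul p.1 (.inv p.2)).eval x ≠ 1 := by
    simp only [LTerm.eval]
    intro hcon
    exact hx (mul_inv_eq_one.mp hcon)
  obtain ⟨T', i1, i2, t₀, i3, hmove⟩ := exists_chain_moving hne
  obtain ⟨F, hF1, hF2, -, hF4⟩ := pattern.{u', u', u, v} x (LTerm.mul p.1 (.inv p.2)) t₀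
  -- the sequence `k ^ n • β₀`
  have hseqmem : ∀ n : ℕ, k ^ n • β₀ ∈ Δ := fun n => h.smul_mem _ (pow_mem hkS n) _ hβ₀
  have hseq : StrictMono (fun n : ℕ => k ^ n • β₀) := by
    refine strictMono_nat_of_lt_succ fun n => ?_
    rw [pow_succ, mul_smul, smul_lt_iff]
    exact hk
  let φ : T' → T := fun t => k ^ (F.filter (fun s => s < t)).card • β₀
  have hφlt : ∀ s ∈ F, ∀ t ∈ F, s < t → φ s < φ t := by
    intro s hs t ht hst
    apply hseq
    apply Finset.card_lt_card
    refine ⟨fun a ha => ?_, fun hsub => ?_⟩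
    · rw [Finset.mem_filter] at ha ⊢
      exact ⟨ha.1, ha.2.trans hst⟩
    · have : s ∈ F.filter (fun a => a < s) := hsub (Finset.mem_filter.mpr ⟨hs, hst⟩)
      exact lt_irrefl s (Finset.mem_filter.mp this).2
  have hφle : ∀ s ∈ F, ∀ t ∈ F, s ≤ t → φ s ≤ φ t := by
    intro s hs t ht hst
    rcases hst.lt_or_eq with hlt | heq
    · exact (hφlt s hs t ht hlt).le
    · rw [heq]
  have hφinj : ∀ s ∈ F, ∀ t ∈ F, φ s = φ t → s = t := by
    intro s hs t ht hst
    rcases lt_trichotomy s t with hlt | heq | hgt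
    · exact absurd hst (hφlt s hs t ht hlt).ne
    · exact heq
    · exact absurd hst (hφlt t ht s hs hgt).ne'
  have hφmem : ∀ t, φ t ∈ Δ := fun t => hseqmem _
  -- choose the elements
  have hchoice : ∀ j : X, ∃ g ∈ S, ∀ t ∈ F, x j • t ∈ F → g • φ t = φ (x j • t) := by
    intro j
    let A : Finset T := (F.filter (fun t => x j • t ∈ F)).image φ
    -- the inverse of φ
    have hinv : ∃ ψ : T → T', ∀ t ∈ F, ψ (φ t) = t := by
      refine ⟨fun y => if hy : ∃ t ∈ F, φ t = y then hy.choose else t₀, fun t ht => ?_⟩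
      have hy : ∃ s ∈ F, φ s = φ t := ⟨t, ht, rfl⟩
      change (if hy : ∃ s ∈ F, φ s = φ t then hy.choose else t₀) = t
      rw [dif_pos hy]
      exact hφinj _ hy.choose_spec.1 _ ht hy.choose_spec.2
    obtain ⟨ψ, hψ⟩ := hinv
    obtain ⟨g, hg, hgA⟩ := h.high A (by
        intro a ha
        obtain ⟨t, -, rfl⟩ := Finset.mem_image.mp ha
        exact hφmem t)
      (fun y => φ (x j • ψ y)) (fun a _ => hφmem _) (by
        intro a ha b hb hab
        obtain ⟨s, hs, rfl⟩ := Finset.mem_image.mp ha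
        obtain ⟨t, ht, rfl⟩ := Finset.mem_image.mp hb
        rw [Finset.mem_filter] at hs ht
        simp only [hψ s hs.1, hψ t ht.1]
        apply hφlt _ hs.2 _ ht.2
        rw [smul_lt_iff]
        by_contra hcon
        exact absurd hab (not_lt.mpr (hφle t ht.1 s hs.1 (not_lt.mp hcon))))
    refine ⟨g, hg, fun t ht hjt => ?_⟩
    rw [hgA (φ t) (Finset.mem_image_of_mem φ (Finset.mem_filter.mpr ⟨ht, hjt⟩))]
    simp only [hψ t ht]
  choose g hgS hg using hchoice
  refine ⟨g, φ t₀, hφmem t₀, hgS, ?_⟩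
  have := hF4 φ hφle g (fun j t ht hjt => hg j t ht hjt)
  simp only [LTerm.eval] at this
  rw [this]
  intro hcon
  exact hmove (hφinj _ hF2 _ hF1 hcon)

end action

end Pool.Agent.LGroupRank
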