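import Mathlib

/-!
Lattice-ordered groups, their varieties, rank of a variety, and products of varieties.
-/

set_option autoImplicit false

namespace Pool.Agent.LGroupRank

universe u

/-- A lattice-ordered group (ℓ-group): a group carrying a lattice order such that
`x ≤ y` implies `a * x * b ≤ a * y * b`. -/
class LGroup (G : Type u) extends Group G, Lattice G where
  /-- two-sided translations preserve the order -/
  mul_le_mul_two_sided : ∀ a b x y : G, x ≤ y → a * x * b ≤ a * y * b

/-- Terms in the signature `(·, ⁻¹, e, ∧, ∨)` of ℓ-groups, with variables from `X`. -/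
inductive LTerm (X : Type) : Type
  | var (i : X) : LTerm X
  | one : LTerm X
  | mul (s t : LTerm X) : LTerm X
  | inv (s : LTerm X) : LTerm X
  | inf (s t : LTerm X) : LTerm X
  | sup (s t : LTerm X) : LTerm X

/-- The value of a term in an ℓ-group `G` under an assignment `x` of elements to the variables. -/
def LTerm.eval {X : Type} {G : Type u} [LGroup G] (x : X → G) : LTerm X → G
  | .var i => x i
  | .one => 1
  | .mul s t => s.eval x * t.eval x
  | .inv s => (s.eval x)⁻¹
  | .inf s t => s.eval x ⊓ t.eval x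
  | .sup s t => s.eval x ⊔ t.eval x

/-- The ℓ-group `G` satisfies all identities `s = t`, `(s, t) ∈ E`. -/
def Satisfies (G : Type u) [LGroup G] {X : Type} (E : Set (LTerm X × LTerm X)) : Prop :=
  ∀ p ∈ E, ∀ x : X → G, p.1.eval x = p.2.eval x

/-- A class of ℓ-groups (in the universe `u`). -/
abbrev LClass : Type (u + 1) := ∀ (G : Type u) [LGroup G], Prop

/-- A variety of ℓ-groups: the class of all ℓ-groups satisfying a given set of identities
(in countably many variables). -/
def IsVariety (V : LClass.{u}) : Prop :=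
  ∃ E : Set (LTerm ℕ × LTerm ℕ), ∀ (G : Type u) [LGroup G], V G ↔ Satisfies G E

/-- The class `V` is the class of all ℓ-groups satisfying some set (possibly infinite) of
identities, each of which involves only the variables `x_1, …, x_n`. -/
def DefinedInVars (n : ℕ) (V : LClass.{u}) : Prop :=
  ∃ E : Set (LTerm (Fin n) × LTerm (Fin n)), ∀ (G : Type u) [LGroup G], V G ↔ Satisfies G E

/-- The class `V` has finite rank. -/
def FiniteRank (V : LClass.{u}) : Prop := ∃ n : ℕ, 0 < n ∧ DefinedInVars n V

/-- An ℓ-ideal of an ℓ-group: a normal subgroup that is a convex sublattice. -/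
structure LIdeal (G : Type u) [LGroup G] where
  /-- the underlying subgroup -/
  carrier : Subgroup G
  /-- it is normal -/
  normal : carrier.Normal
  /-- it is closed under joins -/
  sup_mem : ∀ a ∈ carrier, ∀ b ∈ carrier, a ⊔ b ∈ carrier
  /-- it is closed under meets -/
  inf_mem : ∀ a ∈ carrier, ∀ b ∈ carrier, a ⊓ b ∈ carrier
  /-- it is convex -/
  convex : ∀ a ∈ carrier, ∀ b ∈ carrier, ∀ x : G, a ≤ x → x ≤ b → x ∈ carrier

section basics

variable {G : Type u} [LGroup G]

instance (priority := 900) instMulLeftMono : MulLeftMono G where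
  elim a x y h := by simpa using LGroup.mul_le_mul_two_sided a 1 x y h

instance (priority := 900) instMulRightMono : MulRightMono G where
  elim a x y h := by simpa [Function.swap] using LGroup.mul_le_mul_two_sided 1 a x y h

end basics

namespace LIdeal

variable {G : Type u} [LGroup G] (N : LIdeal G)

instance instNormalCarrier : N.carrier.Normal := N.normal

/-- An ℓ-ideal as an ℓ-group, with the operations and the order of `G`. -/
instance instLGroupCarrier : LGroup N.carrier where
  __ := (inferInstance : Group N.carrier)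
  __ := Subtype.lattice (P := fun x => x ∈ N.carrier)
    (fun _ _ hx hy => N.sup_mem _ hx _ hy) (fun _ _ hx hy => N.inf_mem _ hx _ hy)
  mul_le_mul_two_sided a b x y h := LGroup.mul_le_mul_two_sided (a : G) b x y h

/-- The order of the quotient `G / N`: a coset `A` is at most a coset `B` if and only if
`x ≤ y` for some `x ∈ A` and `y ∈ B`. -/
def quotLE (A B : G ⧸ N.carrier) : Prop :=
  ∃ x y : G, (x : G ⧸ N.carrier) = A ∧ (y : G ⧸ N.carrier) = B ∧ x ≤ y

theorem mem_of_abs_le {a x : G} (ha : a ∈ N.carrier) (h : x ≤ a) (h' : x⁻¹ ≤ a) :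
    x ∈ N.carrier :=
  N.convex a⁻¹ (inv_mem ha) a ha x (inv_le_of_inv_le' h') h

theorem quotLE_mk {x y : G} :
    N.quotLE (x : G ⧸ N.carrier) (y : G ⧸ N.carrier) ↔ ∃ c ∈ N.carrier, x ≤ y * c := by
  constructor
  · rintro ⟨x', y', hx, hy, hxy⟩
    rw [QuotientGroup.eq] at hx hy
    refine ⟨(y⁻¹ * y') * (x'⁻¹ * x), mul_mem ?_ hx, ?_⟩
    · have := inv_mem hy
      rwa [mul_inv_rev, inv_inv] at this
    · calc x = x' * (x'⁻¹ * x) := by group
        _ ≤ y' * (x'⁻¹ * x) := mul_le_mul_left hxy _
        _ = y * ((y⁻¹ * y') * (x'⁻¹ * x)) := by group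
  · rintro ⟨c, hc, h⟩
    refine ⟨x, y * c, rfl, ?_, h⟩
    rw [QuotientGroup.eq]
    simpa using hc

theorem mabs_mem {a : G} (ha : a ∈ N.carrier) : |a|ₘ ∈ N.carrier :=
  N.sup_mem _ ha _ (inv_mem ha)

theorem exists_bound {a b : G} (ha : a ∈ N.carrier) (hb : b ∈ N.carrier) :
    ∃ c ∈ N.carrier, a ≤ c ∧ b ≤ c ∧ a⁻¹ ≤ c ∧ b⁻¹ ≤ c :=
  ⟨|a|ₘ ⊔ |b|ₘ, N.sup_mem _ (N.mabs_mem ha) _ (N.mabs_mem hb),
    (le_mabs_self a).trans le_sup_left, (le_mabs_self b).trans le_sup_right,
    (inv_le_mabs a).trans le_sup_left, (inv_le_mabs b).trans le_sup_right⟩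

theorem sup_congr {x x' y y' : G} (hx : x⁻¹ * x' ∈ N.carrier) (hy : y⁻¹ * y' ∈ N.carrier) :
    (x ⊔ y)⁻¹ * (x' ⊔ y') ∈ N.carrier := by
  obtain ⟨c, hc, h1, h2, h3, h4⟩ := N.exists_bound hx hy
  refine N.convex c⁻¹ (inv_mem hc) c hc _ ?_ ?_
  · rw [le_inv_mul_iff_mul_le, mul_inv_le_iff_le_mul, sup_mul]
    refine sup_le_sup ?_ ?_
    · calc x = x' * (x⁻¹ * x')⁻¹ := by group
        _ ≤ x' * c := mul_le_mul_right h3 _
    · calc y = y' * (y⁻¹ * y')⁻¹ := by group
        _ ≤ y' * c := mul_le_mul_right h4 _
  · rw [inv_mul_le_iff_le_mul, sup_mul]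
    refine sup_le_sup ?_ ?_
    · calc x' = x * (x⁻¹ * x') := by group
        _ ≤ x * c := mul_le_mul_right h1 _
    · calc y' = y * (y⁻¹ * y') := by group
        _ ≤ y * c := mul_le_mul_right h2 _

theorem inf_congr {x x' y y' : G} (hx : x⁻¹ * x' ∈ N.carrier) (hy : y⁻¹ * y' ∈ N.carrier) :
    (x ⊓ y)⁻¹ * (x' ⊓ y') ∈ N.carrier := by
  obtain ⟨c, hc, h1, h2, h3, h4⟩ := N.exists_bound hx hy
  refine N.convex c⁻¹ (inv_mem hc) c hc _ ?_ ?_
  · rw [le_inv_mul_iff_mul_le, mul_inv_le_iff_le_mul, inf_mul]
    refine inf_le_inf ?_ ?_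
    · calc x = x' * (x⁻¹ * x')⁻¹ := by group
        _ ≤ x' * c := mul_le_mul_right h3 _
    · calc y = y' * (y⁻¹ * y')⁻¹ := by group
        _ ≤ y' * c := mul_le_mul_right h4 _
  · rw [inv_mul_le_iff_le_mul, inf_mul]
    refine inf_le_inf ?_ ?_
    · calc x' = x * (x⁻¹ * x') := by group
        _ ≤ x * c := mul_le_mul_right h1 _
    · calc y' = y * (y⁻¹ * y') := by group
        _ ≤ y * c := mul_le_mul_right h2 _

/-- The quotient `G / N` of an ℓ-group by an ℓ-ideal, as an ℓ-group. -/
noncomputable instance instLGroupQuotient : LGroup (G ⧸ N.carrier) where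
  __ := (inferInstance : Group (G ⧸ N.carrier))
  le := N.quotLE
  le_refl A := by
    induction A using QuotientGroup.induction_on with
    | H x => exact ⟨x, x, rfl, rfl, le_rfl⟩
  le_trans A B C := by
    induction A using QuotientGroup.induction_on with
    | H x =>
    induction B using QuotientGroup.induction_on with
    | H y =>
    induction C using QuotientGroup.induction_on with
    | H z =>
    rw [quotLE_mk, quotLE_mk, quotLE_mk]
    rintro ⟨c, hc, h⟩ ⟨d, hd, h'⟩
    exact ⟨d * c, mul_mem hd hc, h.trans (by rw [← mul_assoc]; exact mul_le_mul_left h' c)⟩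
  le_antisymm A B := by
    induction A using QuotientGroup.induction_on with
    | H x =>
    induction B using QuotientGroup.induction_on with
    | H y =>
    rw [quotLE_mk, quotLE_mk]
    rintro ⟨c, hc, h⟩ ⟨d, hd, h'⟩
    rw [QuotientGroup.eq]
    refine N.convex c⁻¹ (inv_mem hc) d hd _ ?_ ?_
    · rwa [le_inv_mul_iff_mul_le, mul_inv_le_iff_le_mul]
    · rwa [inv_mul_le_iff_le_mul]
  sup := Quotient.map₂ (fun x y => x ⊔ y) (by
    intro x x' hx y y' hy
    have hx' := QuotientGroup.leftRel_apply.mp hx
    have hy' := QuotientGroup.leftRel_apply.mp hy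
    exact QuotientGroup.leftRel_apply.mpr (N.sup_congr hx' hy'))
  inf := Quotient.map₂ (fun x y => x ⊓ y) (by
    intro x x' hx y y' hy
    have hx' := QuotientGroup.leftRel_apply.mp hx
    have hy' := QuotientGroup.leftRel_apply.mp hy
    exact QuotientGroup.leftRel_apply.mpr (N.inf_congr hx' hy'))
  le_sup_left A B := by
    induction A using QuotientGroup.induction_on with
    | H x =>
    induction B using QuotientGroup.induction_on with
    | H y => exact ⟨x, x ⊔ y, rfl, rfl, le_sup_left⟩
  le_sup_right A B := by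
    induction A using QuotientGroup.induction_on with
    | H x =>
    induction B using QuotientGroup.induction_on with
    | H y => exact ⟨y, x ⊔ y, rfl, rfl, le_sup_right⟩
  sup_le A B C := by
    induction A using QuotientGroup.induction_on with
    | H x =>
    induction B using QuotientGroup.induction_on with
    | H y =>
    induction C using QuotientGroup.induction_on with
    | H z =>
    intro h h'
    obtain ⟨c, hc, h⟩ := N.quotLE_mk.mp h
    obtain ⟨d, hd, h'⟩ := N.quotLE_mk.mp h'
    refine N.quotLE_mk.mpr ⟨c ⊔ d, N.sup_mem _ hc _ hd, ?_⟩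
    exact sup_le (h.trans (mul_le_mul_right le_sup_left _))
      (h'.trans (mul_le_mul_right le_sup_right _))
  inf_le_left A B := by
    induction A using QuotientGroup.induction_on with
    | H x =>
    induction B using QuotientGroup.induction_on with
    | H y => exact ⟨x ⊓ y, x, rfl, rfl, inf_le_left⟩
  inf_le_right A B := by
    induction A using QuotientGroup.induction_on with
    | H x =>
    induction B using QuotientGroup.induction_on with
    | H y => exact ⟨x ⊓ y, y, rfl, rfl, inf_le_right⟩
  le_inf A B C := by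
    induction A using QuotientGroup.induction_on with
    | H x =>
    induction B using QuotientGroup.induction_on with
    | H y =>
    induction C using QuotientGroup.induction_on with
    | H z =>
    intro h h'
    obtain ⟨c, hc, h⟩ := N.quotLE_mk.mp h
    obtain ⟨d, hd, h'⟩ := N.quotLE_mk.mp h'
    refine N.quotLE_mk.mpr ⟨c ⊔ d, N.sup_mem _ hc _ hd, ?_⟩
    rw [inf_mul]
    exact le_inf (h.trans (mul_le_mul_right le_sup_left _))
      (h'.trans (mul_le_mul_right le_sup_right _))
  mul_le_mul_two_sided A B C D := by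
    induction A using QuotientGroup.induction_on with
    | H a =>
    induction B using QuotientGroup.induction_on with
    | H b =>
    induction C using QuotientGroup.induction_on with
    | H x =>
    induction D using QuotientGroup.induction_on with
    | H y =>
    rintro ⟨x', y', hx, hy, hxy⟩
    exact ⟨a * x' * b, a * y' * b, by rw [← hx]; rfl, by rw [← hy]; rfl,
      LGroup.mul_le_mul_two_sided a b x' y' hxy⟩

end LIdeal

/-- The product of two classes of ℓ-groups: `G` belongs to it if and only if `G` has an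
ℓ-ideal `N` with `N` in the first class and `G / N` in the second class. -/
def LClass.prod (V₁ V₂ : LClass.{u}) : LClass.{u} :=
  fun G _ => ∃ N : LIdeal G, V₁ N.carrier ∧ V₂ (G ⧸ N.carrier)

end Pool.Agent.LGroupRank
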