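import Pool.Agent.LGroupRank.Wolf

/-!
The product of a variety defined by identities in `n₁` variables and a variety defined by
identities in `n₂` variables is defined by identities in `max 2 (n₁ + n₂)` variables.
-/

set_option autoImplicit false

namespace Pool.Agent.LGroupRank

universe u v

open MulAction

/-! ### Terms -/

/-- Substitution of terms for variables. -/
def LTerm.subst {X Y : Type} (σ : X → LTerm Y) : LTerm X → LTerm Y
  | .var i => σ i
  | .one => .one
  | .mul s t => .mul (s.subst σ) (t.subst σ)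
  | .inv s => .inv (s.subst σ)
  | .inf s t => .inf (s.subst σ) (t.subst σ)
  | .sup s t => .sup (s.subst σ) (t.subst σ)

theorem LTerm.eval_subst {X Y : Type} (σ : X → LTerm Y) {G : Type u} [LGroup G] (z : Y → G)
    (t : LTerm X) : (t.subst σ).eval z = t.eval (fun i => (σ i).eval z) := by
  induction t with
  | var i => rfl
  | one => rfl
  | mul s t hs ht => simp only [LTerm.subst, LTerm.eval, hs, ht]
  | inv s hs => simp only [LTerm.subst, LTerm.eval, hs]
  | inf s t hs ht => simp only [LTerm.subst, LTerm.eval, hs, ht]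
  | sup s t hs ht => simp only [LTerm.subst, LTerm.eval, hs, ht]

/-- Powers of a term. -/
def LTerm.pow {X : Type} (t : LTerm X) : ℕ → LTerm X
  | 0 => .one
  | n + 1 => .mul (t.pow n) t

theorem LTerm.eval_pow {X : Type} {G : Type u} [LGroup G] (x : X → G) (t : LTerm X) (n : ℕ) :
    (t.pow n).eval x = (t.eval x) ^ n := by
  induction n with
  | zero => simp [LTerm.pow, LTerm.eval]
  | succ n ih => simp [LTerm.pow, LTerm.eval, ih, pow_succ]

/-- The join of `1` and of the elements `r v ^ m r⁻¹`, `(r, m)` in a list. -/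
def bval {X : Type} {G : Type u} [LGroup G] (x : X → G) (v : G) :
    List (LTerm X × ℕ) → G
  | [] => 1
  | rm :: l => (rm.1.eval x * v ^ rm.2 * (rm.1.eval x)⁻¹) ⊔ bval x v l

theorem one_le_bval {X : Type} {G : Type u} [LGroup G] (x : X → G) (v : G)
    (l : List (LTerm X × ℕ)) : 1 ≤ bval x v l := by
  induction l with
  | nil => exact le_rfl
  | cons rm l ih => exact ih.trans le_sup_right

theorem le_bval {X : Type} {G : Type u} [LGroup G] (x : X → G) (v : G)
    (l : List (LTerm X × ℕ)) (rm : LTerm X × ℕ) (h : rm ∈ l) :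
    rm.1.eval x * v ^ rm.2 * (rm.1.eval x)⁻¹ ≤ bval x v l := by
  induction l with
  | nil => simp at h
  | cons rm' l ih =>
    rcases List.mem_cons.mp h with rfl | h
    · exact le_sup_left
    · exact (ih h).trans le_sup_right

theorem bval_mem {X : Type} {G : Type u} [LGroup G] (x : X → G) (v : G) {N : Subgroup G}
    (hN : Solid N) (hnorm : N.Normal) (hv : v ∈ N) (l : List (LTerm X × ℕ)) :
    bval x v l ∈ N := by
  induction l with
  | nil => exact one_mem N
  | cons rm l ih => exact hN.sup_mem (hnorm.conj_mem _ (pow_mem hv _) _) ih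

/-- The term in the variables `X ⊕ Y` whose value is `bval`. -/
def bterm {X Y : Type} (v : LTerm (X ⊕ Y)) : List (LTerm X × ℕ) → LTerm (X ⊕ Y)
  | [] => .one
  | rm :: l => .sup (.mul (.mul (rm.1.subst (fun i => .var (Sum.inl i))) (v.pow rm.2))
      (.inv (rm.1.subst (fun i => .var (Sum.inl i))))) (bterm v l)

theorem eval_bterm {X Y : Type} {G : Type u} [LGroup G] (z : X ⊕ Y → G) (v : LTerm (X ⊕ Y))
    (l : List (LTerm X × ℕ)) :
    (bterm v l).eval z = bval (fun i => z (Sum.inl i)) (v.eval z) l := by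
  induction l with
  | nil => rfl
  | cons rm l ih =>
    simp only [bterm, bval, LTerm.eval, LTerm.eval_subst, LTerm.eval_pow, ih]

/-- The term `|q₁ q₂⁻¹|` in the second group of variables. -/
def vterm {X Y : Type} (q : LTerm Y × LTerm Y) : LTerm (X ⊕ Y) :=
  let t : LTerm (X ⊕ Y) := .mul (q.1.subst (fun i => .var (Sum.inr i)))
    (.inv (q.2.subst (fun i => .var (Sum.inr i))))
  .sup t (.inv t)

theorem eval_vterm {X Y : Type} {G : Type u} [LGroup G] (z : X ⊕ Y → G)
    (q : LTerm Y × LTerm Y) :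
    (vterm q).eval z = |q.1.eval (fun i => z (Sum.inr i)) *
      (q.2.eval (fun i => z (Sum.inr i)))⁻¹|ₘ := by
  simp only [vterm, LTerm.eval, LTerm.eval_subst, mabs]

/-- The substitution `x_j ↦ (x_j ∧ b) ∨ b⁻¹`. -/
def cut {X Y : Type} (b : LTerm (X ⊕ Y)) (j : X) : LTerm (X ⊕ Y) :=
  .sup (.inf (.var (Sum.inl j)) b) (.inv b)

/-- The identities obtained from `E₁` and `E₂`. -/
def sigma {X Y : Type} (E₁ : Set (LTerm X × LTerm X)) (E₂ : Set (LTerm Y × LTerm Y)) :
    Set (LTerm (X ⊕ Y) × LTerm (X ⊕ Y)) :=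
  {e | ∃ p ∈ E₁, ∃ q ∈ E₂, ∃ l : List (LTerm X × ℕ),
    e = (p.1.subst (cut (bterm (vterm q) l)), p.2.subst (cut (bterm (vterm q) l)))}

/-- The identity `(|x₀| |x₁|) ∧ (|x₁|² |x₀|²) = |x₀| |x₁|`. -/
def wolf : LTerm (Fin 2) × LTerm (Fin 2) :=
  let a : LTerm (Fin 2) := .sup (.var 0) (.inv (.var 0))
  let b : LTerm (Fin 2) := .sup (.var 1) (.inv (.var 1))
  (.inf (.mul a b) (.mul (.mul b b) (.mul a a)), .mul a b)

theorem satisfies_wolf_iff {G : Type u} [LGroup G] :
    Satisfies G {wolf} ↔ ∀ a b : G, 1 ≤ a → 1 ≤ b → a * b ≤ b ^ 2 * a ^ 2 := by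
  constructor
  · intro h a b ha hb
    have := h wolf rfl ![a, b]
    simp only [wolf, LTerm.eval, Matrix.cons_val_zero, Matrix.cons_val_one] at this
    have h1 : a ⊔ a⁻¹ = a := mabs_of_one_le ha
    have h2 : b ⊔ b⁻¹ = b := mabs_of_one_le hb
    rw [h1, h2] at this
    rw [pow_two, pow_two]
    exact inf_eq_left.mp this
  · rintro h e rfl x
    simp only [wolf, LTerm.eval]
    rw [inf_eq_left, ← pow_two, ← pow_two]
    exact h _ _ (one_le_mabs (x 0)) (one_le_mabs (x 1))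

/-- Renaming the variables of a set of identities. -/
def renameSet {Z W : Type} (f : Z → W) (E : Set (LTerm Z × LTerm Z)) :
    Set (LTerm W × LTerm W) :=
  {e | ∃ p ∈ E, e = (p.1.subst (fun i => .var (f i)), p.2.subst (fun i => .var (f i)))}

theorem satisfies_renameSet {Z W : Type} {f : Z → W} (hf : Function.Injective f)
    (E : Set (LTerm Z × LTerm Z)) {G : Type u} [LGroup G] :
    Satisfies G (renameSet f E) ↔ Satisfies G E := by
  constructor
  · intro h p hp x
    have := h _ ⟨p, hp, rfl⟩ (Function.extend f x 1)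
    simpa only [LTerm.eval_subst, LTerm.eval, hf.extend_apply] using this
  · rintro h _ ⟨p, hp, rfl⟩ x
    simp only [LTerm.eval_subst, LTerm.eval]
    exact h p hp _

theorem satisfies_union {Z : Type} (E E' : Set (LTerm Z × LTerm Z)) {G : Type u} [LGroup G] :
    Satisfies G (E ∪ E') ↔ Satisfies G E ∧ Satisfies G E' := by
  constructor
  · exact fun h => ⟨fun p hp => h p (Or.inl hp), fun p hp => h p (Or.inr hp)⟩
  · rintro ⟨h, h'⟩ p (hp | hp)
    · exact h p hp
    · exact h' p hp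

/-! ### The main argument -/

section main

variable {G : Type u} [LGroup G]

/-- In a normal-valued ℓ-group, the convex ℓ-subgroup generated by `D` and `v`. -/
def hull (hW : ∀ a b : G, 1 ≤ a → 1 ≤ b → a * b ≤ b ^ 2 * a ^ 2) (D : Subgroup G)
    (hD : Solid D) (v : G) (hv : 1 ≤ v) : Subgroup G where
  carrier := {x | ∃ m : ℕ, ∃ c ∈ D, |x|ₘ ≤ v ^ m * c}
  one_mem' := ⟨0, 1, one_mem D, by simp⟩
  mul_mem' := by
    rintro x y ⟨m, c, hc, hx⟩ ⟨m', c', hc', hy⟩
    have hc1 : (1 : G) ≤ |c|ₘ := one_le_mabs c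
    have hc1' : (1 : G) ≤ |c'|ₘ := one_le_mabs c'
    have hx' : |x|ₘ ≤ v ^ m * |c|ₘ := hx.trans (mul_le_mul_right (le_mabs_self c) _)
    have hy' : |y|ₘ ≤ v ^ m' * |c'|ₘ := hy.trans (mul_le_mul_right (le_mabs_self c') _)
    have hcD : |c|ₘ ∈ D := hD.mabs_mem_iff.mpr hc
    have hcD' : |c'|ₘ ∈ D := hD.mabs_mem_iff.mpr hc'
    refine ⟨m + 2 * m' + 2 * m, (|c|ₘ ^ 2 * |c'|ₘ) ^ 2 * |c|ₘ,
      mul_mem (pow_mem (mul_mem (pow_mem hcD 2) hcD') 2) hcD, ?_⟩
    have h1 : |c|ₘ * v ^ m' ≤ (v ^ m') ^ 2 * |c|ₘ ^ 2 :=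
      hW _ _ hc1 (one_le_pow_of_one_le' hv m')
    have h2 : (|c|ₘ ^ 2 * |c'|ₘ) * v ^ m ≤ (v ^ m) ^ 2 * (|c|ₘ ^ 2 * |c'|ₘ) ^ 2 :=
      hW _ _ (one_le_mul (one_le_pow_of_one_le' hc1 2) hc1') (one_le_pow_of_one_le' hv m)
    calc |x * y|ₘ ≤ |x|ₘ * |y|ₘ * |x|ₘ := mabs_mul_le_three x y
      _ ≤ (v ^ m * |c|ₘ) * (v ^ m' * |c'|ₘ) * (v ^ m * |c|ₘ) :=
          mul_le_mul' (mul_le_mul' hx' hy') hx'
      _ = v ^ m * (|c|ₘ * v ^ m') * (|c'|ₘ * v ^ m * |c|ₘ) := by simp only [mul_assoc]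
      _ ≤ v ^ m * ((v ^ m') ^ 2 * |c|ₘ ^ 2) * (|c'|ₘ * v ^ m * |c|ₘ) :=
          mul_le_mul_left (mul_le_mul_right h1 _) _
      _ = v ^ m * (v ^ m') ^ 2 * ((|c|ₘ ^ 2 * |c'|ₘ) * v ^ m) * |c|ₘ := by
          simp only [mul_assoc]
      _ ≤ v ^ m * (v ^ m') ^ 2 * ((v ^ m) ^ 2 * (|c|ₘ ^ 2 * |c'|ₘ) ^ 2) * |c|ₘ :=
          mul_le_mul_left (mul_le_mul_right h2 _) _
      _ = v ^ (m + 2 * m' + 2 * m) * ((|c|ₘ ^ 2 * |c'|ₘ) ^ 2 * |c|ₘ) := by
          have : v ^ (m + 2 * m' + 2 * m) = v ^ m * (v ^ m') ^ 2 * (v ^ m) ^ 2 := by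
            rw [← pow_mul, ← pow_mul, ← pow_add, ← pow_add]
            congr 1
            ring
          rw [this]
          simp only [mul_assoc]
  inv_mem' := by
    rintro x ⟨m, c, hc, hx⟩
    exact ⟨m, c, hc, by simpa using hx⟩

theorem solid_hull (hW : ∀ a b : G, 1 ≤ a → 1 ≤ b → a * b ≤ b ^ 2 * a ^ 2) (D : Subgroup G)
    (hD : Solid D) (v : G) (hv : 1 ≤ v) : Solid (hull hW D hD v hv) := by
  rintro a ⟨m, c, hc, ha⟩ x hx
  exact ⟨m, c, hc, hx.trans ha⟩

theorem le_hull (hW : ∀ a b : G, 1 ≤ a → 1 ≤ b → a * b ≤ b ^ 2 * a ^ 2) (D : Subgroup G)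
    (hD : Solid D) (v : G) (hv : 1 ≤ v) : D ≤ hull hW D hD v hv := by
  intro x hx
  exact ⟨0, |x|ₘ, hD.mabs_mem_iff.mpr hx, by simp⟩

theorem mem_hull (hW : ∀ a b : G, 1 ≤ a → 1 ≤ b → a * b ≤ b ^ 2 * a ^ 2) (D : Subgroup G)
    (hD : Solid D) (v : G) (hv : 1 ≤ v) : v ∈ hull hW D hD v hv :=
  ⟨1, 1, one_mem D, by rw [mabs_of_one_le hv]; simp⟩

/-- The key lemma: if the ideal generated by `Val` violates an identity, a violation is
witnessed by truncations with respect to finitely many conjugates of powers of a single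
element of `Val`. -/
theorem key_lemma (hW : ∀ a b : G, 1 ≤ a → 1 ≤ b → a * b ≤ b ^ 2 * a ^ 2)
    (Val : Set G) {X : Type} [Finite X] (a : X → G) (ha : ∀ j, a j ∈ solidClosure Val)
    (p : LTerm X × LTerm X) (hp : p.1.eval a ≠ p.2.eval a) :
    ∃ v ∈ Val, ∃ l : List (LTerm X × ℕ),
      p.1.eval (fun j => (a j ⊓ bval a |v|ₘ l) ⊔ (bval a |v|ₘ l)⁻¹) ≠
      p.2.eval (fun j => (a j ⊓ bval a |v|ₘ l) ⊔ (bval a |v|ₘ l)⁻¹) := by
  classical
  have hbot : Solid (⊥ : Subgroup G) := by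
    intro a ha x hx
    rw [Subgroup.mem_bot] at ha ⊢
    subst ha
    rw [mabs_one] at hx
    obtain ⟨h1, h2⟩ := mabs_le'.mp hx
    exact le_antisymm h1 (Left.inv_le_one_iff.mp h2)
  have hw : (LTerm.mul p.1 (.inv p.2)).eval a ∉ (⊥ : Subgroup G) := by
    rw [Subgroup.mem_bot]
    simp only [LTerm.eval]
    exact fun hcon => hp (mul_inv_eq_one.mp hcon)
  obtain ⟨C, hC⟩ := exists_value hbot hw
  obtain ⟨T, i1, i2, t₀, i3, i4, hstab, hle⟩ := exists_chain C hC.solid hC.prime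
  obtain ⟨F, hF1, hF2, hF3, hF4⟩ := pattern.{u, u, u, u} a (LTerm.mul p.1 (.inv p.2)) t₀
  -- a bound for the `a j`
  obtain ⟨s, hsN, hs1, hsa⟩ : ∃ s ∈ solidClosure Val, 1 ≤ s ∧ ∀ j, |a j|ₘ ≤ s := by
    have hgen : ∀ A : Finset X, ∃ s ∈ solidClosure Val, 1 ≤ s ∧ ∀ j ∈ A, |a j|ₘ ≤ s := by
      intro A
      induction A using Finset.induction_on with
      | empty => exact ⟨1, one_mem _, le_rfl, by simp⟩
      | insert i A hi ih =>
        obtain ⟨s, h1, h2, h3⟩ := ih
        refine ⟨s ⊔ |a i|ₘ, (solid_solidClosure Val).sup_mem h1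
          ((solid_solidClosure Val).mabs_mem_iff.mpr (ha i)), h2.trans le_sup_left, ?_⟩
        intro j hj
        rcases Finset.mem_insert.mp hj with rfl | hj
        · exact le_sup_right
        · exact (h3 j hj).trans le_sup_left
    have := Fintype.ofFinite X
    obtain ⟨s, h1, h2, h3⟩ := hgen Finset.univ
    exact ⟨s, h1, h2, fun j => h3 j (Finset.mem_univ j)⟩
  have hsC : s ∉ C := by
    intro hsC
    exact hC.not_mem (hC.solid.eval_mem (fun j => hC.solid.mem_of_mabs_le hsC (hsa j)) _)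
  obtain ⟨D, hD⟩ := exists_value hC.solid hsC
  -- a generator outside `D`
  obtain ⟨v₀, hv₀, hv₀D⟩ : ∃ v ∈ Val, v ∉ D := by
    by_contra hcon
    push Not at hcon
    exact hD.not_mem (solidClosure_le hD.solid (fun x hx => hcon x hx) hsN)
  refine ⟨v₀, hv₀, ?_⟩
  generalize hv : |v₀|ₘ = v
  have hv1 : 1 ≤ v := hv ▸ one_le_mabs v₀
  have hvD : v ∉ D := by
    rw [← hv, hD.solid.mabs_mem_iff]
    exact hv₀D
  let E := hull hW D hD.solid v hv1
  have hE : Solid E := solid_hull _ _ _ _ _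
  have hsE : s ∈ E := by
    by_contra hsE
    have := hD.maximal E hE (le_hull _ _ _ _ _) hsE
    exact hvD (this ▸ mem_hull hW D hD.solid v hv1)
  have haE : ∀ j, a j ∈ E := fun j => hE.mem_of_mabs_le hsE (hsa j)
  -- comparison at a point
  have hpt : ∀ t ∈ F, ∃ rm : LTerm X × ℕ,
      s • t ≤ (rm.1.eval a * v ^ rm.2 * (rm.1.eval a)⁻¹) • t := by
    intro t ht
    obtain ⟨r, hr⟩ := hF3 t ht
    have hrE : r.eval a ∈ E := hE.eval_mem haE r
    obtain ⟨m, c, hc, hm⟩ : (r.eval a)⁻¹ * s * r.eval a ∈ E :=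
      mul_mem (mul_mem (inv_mem hrE) hsE) hrE
    refine ⟨(r, m + 1), ?_⟩
    have h1 : LeMod D ((r.eval a)⁻¹ * s * r.eval a) (v ^ m) :=
      ⟨c, hc, (le_mabs_self _).trans hm⟩
    have h2 : LeMod C ((r.eval a)⁻¹ * s * r.eval a) (v ^ (m + 1)) := by
      rcases leMod_total hC.prime ((r.eval a)⁻¹ * s * r.eval a) (v ^ (m + 1)) with h | h
      · exact h
      · exfalso
        obtain ⟨c', hc', h3⟩ := (h.mono hD.le).trans h1
        rw [pow_succ] at h3
        exact hvD (hD.solid.mem_of_le hc' hv1 (le_of_mul_le_mul_left' h3))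
    have h3 := (hle _ _).mpr h2
    rw [hr]
    have h4 := LAct.smul_mono (r.eval a) _ _ h3
    simp only [← mul_smul] at h4 ⊢
    have h5 : r.eval a * ((r.eval a)⁻¹ * s * r.eval a) = s * r.eval a := by group
    have h6 : r.eval a * v ^ (m + 1) * (r.eval a)⁻¹ * r.eval a = r.eval a * v ^ (m + 1) := by
      group
    rw [h5] at h4
    rw [h6]
    exact h4
  have hne : Nonempty (LTerm X × ℕ) := ⟨(LTerm.one, 0)⟩
  choose! rm hrm using hpt
  let l : List (LTerm X × ℕ) := F.toList.map rm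
  refine ⟨l, ?_⟩
  generalize hb : bval a v l = b
  have hbt : ∀ t ∈ F, s • t ≤ b • t := by
    intro t ht
    refine (hrm t ht).trans (le_smul_of_le ?_ t)
    rw [← hb]
    exact le_bval a v l (rm t) (List.mem_map.mpr ⟨t, Finset.mem_toList.mpr ht, rfl⟩)
  have hagree : ∀ j, ∀ t ∈ F, a j • t ∈ F → ((a j ⊓ b) ⊔ b⁻¹) • t = a j • t := by
    intro j t ht hjt
    rw [LAct.sup_smul, LAct.inf_smul]
    have h1 : a j • t ≤ b • t :=
      (le_smul_of_le ((le_mabs_self (a j)).trans (hsa j)) t).trans (hbt t ht)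
    have h2 : b⁻¹ • t ≤ a j • t := by
      rw [← smul_le_iff b, smul_inv_smul]
      have h3 : (a j)⁻¹ • (a j • t) ≤ b • (a j • t) :=
        (le_smul_of_le ((inv_le_mabs (a j)).trans (hsa j)) _).trans (hbt _ hjt)
      rwa [inv_smul_smul] at h3
    rw [min_eq_left h1, max_eq_left h2]
  have hfin := hF4 (K := G) (Ω := T) id (fun _ _ _ _ h => h)
    (fun j => (a j ⊓ b) ⊔ b⁻¹) (fun j t ht hjt => hagree j t ht hjt)
  simp only [id, LTerm.eval] at hfin
  intro hcon
  rw [hcon, mul_inv_cancel, one_smul] at hfin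
  apply hC.not_mem
  rw [← hstab, mem_stabilizer_iff]
  simp only [LTerm.eval]
  exact hfin.symm

end main

/-! ### The product variety -/

section product

/-- The ℓ-ideal generated by the values of the identities in `E`. -/
def verbalIdeal (G : Type u) [LGroup G] {Y : Type} (E : Set (LTerm Y × LTerm Y)) : LIdeal G where
  carrier := solidClosure {g | ∃ q ∈ E, ∃ y : Y → G, g = q.1.eval y * (q.2.eval y)⁻¹}
  normal := by
    apply solidClosure_normal
    rintro _ ⟨q, hq, y, rfl⟩ g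
    have hev : ∀ t : LTerm Y, g * t.eval y * g⁻¹ = t.eval (fun i => g * y i * g⁻¹) := by
      refine eval_map (fun k : G => g * k * g⁻¹) (by simp) ?_ ?_ ?_ ?_ y
      · intro x z; group
      · intro x; group
      · intro x z; rw [mul_inf, inf_mul]
      · intro x z; rw [mul_sup, sup_mul]
    refine ⟨q, hq, fun i => g * y i * g⁻¹, ?_⟩
    rw [← hev, ← hev]
    group
  sup_mem _ ha _ hb := (solid_solidClosure _).sup_mem ha hb
  inf_mem _ ha _ hb := (solid_solidClosure _).inf_mem ha hb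
  convex _ ha _ hb _ h1 h2 := (solid_solidClosure _).convex ha hb h1 h2

theorem eval_quot {G : Type u} [LGroup G] (N : LIdeal G) {Y : Type} (y : Y → G)
    (t : LTerm Y) :
    ((t.eval y : G) : G ⧸ N.carrier) = t.eval (fun i => ((y i : G) : G ⧸ N.carrier)) :=
  eval_map (fun g : G => (g : G ⧸ N.carrier)) rfl (fun _ _ => rfl) (fun _ => rfl)
    (fun _ _ => rfl) (fun _ _ => rfl) y t

theorem eval_sub {G : Type u} [LGroup G] (N : LIdeal G) {Y : Type} (y : Y → N.carrier)
    (t : LTerm Y) :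
    ((t.eval y : N.carrier) : G) = t.eval (fun i => ((y i : N.carrier) : G)) :=
  eval_map (fun g : N.carrier => (g : G)) rfl (fun _ _ => rfl) (fun _ => rfl)
    (fun _ _ => rfl) (fun _ _ => rfl) y t

theorem satisfies_quot_iff {G : Type u} [LGroup G] (N : LIdeal G) {Y : Type}
    (E : Set (LTerm Y × LTerm Y)) :
    Satisfies (G ⧸ N.carrier) E ↔
      ∀ q ∈ E, ∀ y : Y → G, q.1.eval y * (q.2.eval y)⁻¹ ∈ N.carrier := by
  have hiff : ∀ (q : LTerm Y × LTerm Y) (y : Y → G),
      q.1.eval y * (q.2.eval y)⁻¹ ∈ N.carrier ↔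
      q.1.eval (fun i => ((y i : G) : G ⧸ N.carrier)) =
        q.2.eval (fun i => ((y i : G) : G ⧸ N.carrier)) := by
    intro q y
    rw [← eval_quot, ← eval_quot, QuotientGroup.eq]
    constructor
    · intro h
      have := N.normal.conj_mem _ (inv_mem h) (q.1.eval y)⁻¹
      rw [inv_inv] at this
      convert this using 1
      group
    · intro h
      have := N.normal.conj_mem _ (inv_mem h) (q.1.eval y)
      convert this using 1
      group
  constructor
  · intro h q hq y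
    exact (hiff q y).mpr (h q hq _)
  · intro h q hq y
    have hy : (fun i => (((y i).out : G) : G ⧸ N.carrier)) = y := by
      funext i
      exact Quotient.out_eq' (y i)
    rw [← hy]
    exact (hiff q _).mp (h q hq _)

theorem satisfies_sub_iff {G : Type u} [LGroup G] (N : LIdeal G) {X : Type}
    (E : Set (LTerm X × LTerm X)) :
    Satisfies N.carrier E ↔
      ∀ p ∈ E, ∀ x : X → G, (∀ j, x j ∈ N.carrier) → p.1.eval x = p.2.eval x := by
  constructor
  · intro h p hp x hx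
    have h1 := h p hp (fun j => ⟨x j, hx j⟩)
    have h2 := congrArg (fun g : N.carrier => (g : G)) h1
    simp only [eval_sub] at h2
    exact h2
  · intro h p hp x
    apply Subtype.ext
    rw [eval_sub, eval_sub]
    exact h p hp _ (fun j => (x j).2)

/-- `G` belongs to the product of the varieties defined by `E₁` and `E₂`. -/
def InProd (G : Type u) [LGroup G] {X Y : Type} (E₁ : Set (LTerm X × LTerm X))
    (E₂ : Set (LTerm Y × LTerm Y)) : Prop :=
  ∃ N : LIdeal G, Satisfies N.carrier E₁ ∧ Satisfies (G ⧸ N.carrier) E₂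

/-- Membership in the product of two proper varieties is described by `sigma` and `wolf`. -/
theorem inProd_iff {X Y : Type} [Finite X] (E₁ : Set (LTerm X × LTerm X))
    (E₂ : Set (LTerm Y × LTerm Y)) {H₁ : Type u} [LGroup H₁] (h₁ : ¬ Satisfies H₁ E₁)
    {H₂ : Type u} [LGroup H₂] (h₂ : ¬ Satisfies H₂ E₂) (G : Type u) [LGroup G] :
    InProd G E₁ E₂ ↔ Satisfies G {wolf} ∧ Satisfies G (sigma E₁ E₂) := by
  constructor
  · rintro ⟨N, hN₁, hN₂⟩
    rw [satisfies_quot_iff] at hN₂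
    rw [satisfies_sub_iff] at hN₁
    constructor
    · rw [satisfies_wolf_iff]
      intro a b ha hb
      by_contra hab
      obtain ⟨D, E, hbad⟩ := exists_bad ha hb hab
      unfold Satisfies at h₁ h₂
      push Not at h₁ h₂
      obtain ⟨p, hp, x, hx⟩ := h₁
      obtain ⟨q, hq, y, hy⟩ := h₂
      obtain ⟨g, hg, hne⟩ := hbad.fails N.solid N.normal q y hy (fun g => hN₂ q hq g) p x hx
      exact hne (hN₁ p hp g hg)
    · rintro _ ⟨p, hp, q, hq, l, rfl⟩ z
      simp only [LTerm.eval_subst]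
      apply hN₁ p hp
      intro j
      simp only [cut, LTerm.eval, eval_bterm, eval_vterm]
      have hv := N.mabs_mem (hN₂ q hq (fun i => z (Sum.inr i)))
      have hb := bval_mem (fun i => z (Sum.inl i)) _ N.solid N.normal hv l
      have hb1 := one_le_bval (fun i => z (Sum.inl i))
        (|q.1.eval (fun i => z (Sum.inr i)) * (q.2.eval (fun i => z (Sum.inr i)))⁻¹|ₘ) l
      refine N.convex _ (inv_mem hb) _ hb _ le_sup_right (sup_le inf_le_right ?_)
      exact (Left.inv_le_one_iff.mpr hb1).trans hb1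
  · rintro ⟨hW, hS⟩
    rw [satisfies_wolf_iff] at hW
    refine ⟨verbalIdeal G E₂, ?_, ?_⟩
    · rw [satisfies_sub_iff]
      intro p hp a ha
      by_contra hne
      obtain ⟨v, ⟨q, hq, y, rfl⟩, l, hfail⟩ := key_lemma hW _ a ha p hne
      have := hS _ ⟨p, hp, q, hq, l, rfl⟩ (Sum.elim a y)
      simp only [LTerm.eval_subst, cut, LTerm.eval, eval_bterm, eval_vterm, Sum.elim_inl,
        Sum.elim_inr] at this
      exact hfail this
    · rw [satisfies_quot_iff]
      intro q hq y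
      exact subset_solidClosure _ ⟨q, hq, y, rfl⟩

theorem eval_subsingleton {G : Type u} [LGroup G] [Subsingleton G] {X : Type}
    (E : Set (LTerm X × LTerm X)) : Satisfies G E := fun _ _ _ => Subsingleton.elim _ _

theorem inProd_of_left {X Y : Type} (E₁ : Set (LTerm X × LTerm X))
    (E₂ : Set (LTerm Y × LTerm Y)) (h : ∀ (H : Type u) [LGroup H], Satisfies H E₁)
    (G : Type u) [LGroup G] : InProd G E₁ E₂ := by
  obtain ⟨N, hN⟩ : ∃ N : LIdeal G, ∀ g : G, g ∈ N.carrier :=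
    ⟨⟨⊤, inferInstance, fun _ _ _ _ => trivial, fun _ _ _ _ => trivial,
      fun _ _ _ _ _ _ _ => trivial⟩, fun _ => trivial⟩
  refine ⟨N, h _, ?_⟩
  rw [satisfies_quot_iff]
  exact fun _ _ _ => hN _

theorem inProd_of_right {X Y : Type} (E₁ : Set (LTerm X × LTerm X))
    (E₂ : Set (LTerm Y × LTerm Y)) (h : ∀ (H : Type u) [LGroup H], Satisfies H E₂)
    (G : Type u) [LGroup G] : InProd G E₁ E₂ := by
  refine ⟨verbalIdeal G (∅ : Set (LTerm Y × LTerm Y)), ?_, h _⟩
  rw [satisfies_sub_iff]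
  intro p hp x hx
  have hbot : (verbalIdeal G (∅ : Set (LTerm Y × LTerm Y))).carrier ≤ ⊥ := by
    apply solidClosure_le
    · intro a ha x hx
      rw [Subgroup.mem_bot] at ha ⊢
      subst ha
      rw [mabs_one] at hx
      obtain ⟨h1, h2⟩ := mabs_le'.mp hx
      exact le_antisymm h1 (Left.inv_le_one_iff.mp h2)
    · rintro _ ⟨q, hq, -⟩
      exact absurd hq (Set.notMem_empty q)
  have hx1 : ∀ j, x j = 1 := fun j => Subgroup.mem_bot.mp (hbot (hx j))
  have hone : ∀ t : LTerm X, t.eval x = 1 := by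
    intro t
    induction t with
    | var i => exact hx1 i
    | one => rfl
    | mul s t hs ht => simp only [LTerm.eval, hs, ht, mul_one]
    | inv s hs => simp only [LTerm.eval, hs, inv_one]
    | inf s t hs ht => simp only [LTerm.eval, hs, ht, inf_idem]
    | sup s t hs ht => simp only [LTerm.eval, hs, ht, sup_idem]
  rw [hone, hone]

theorem definedInVars_prod {V₁ V₂ : LClass.{u}} {n₁ n₂ : ℕ} (h₁ : DefinedInVars n₁ V₁)
    (h₂ : DefinedInVars n₂ V₂) : DefinedInVars (max 2 (n₁ + n₂)) (LClass.prod V₁ V₂) := by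
  obtain ⟨E₁, hE₁⟩ := h₁
  obtain ⟨E₂, hE₂⟩ := h₂
  have hprod : ∀ (G : Type u) [LGroup G], LClass.prod V₁ V₂ G ↔ InProd G E₁ E₂ := by
    intro G _
    constructor
    · rintro ⟨N, h1, h2⟩
      exact ⟨N, (hE₁ _).mp h1, (hE₂ _).mp h2⟩
    · rintro ⟨N, h1, h2⟩
      exact ⟨N, (hE₁ _).mpr h1, (hE₂ _).mpr h2⟩
  by_cases t₁ : ∀ (H : Type u) [LGroup H], Satisfies H E₁
  · refine ⟨∅, fun G _ => ?_⟩
    rw [hprod]
    exact ⟨fun _ p hp => absurd hp (Set.notMem_empty p), fun _ => inProd_of_left E₁ E₂ t₁ G⟩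
  by_cases t₂ : ∀ (H : Type u) [LGroup H], Satisfies H E₂
  · refine ⟨∅, fun G _ => ?_⟩
    rw [hprod]
    exact ⟨fun _ p hp => absurd hp (Set.notMem_empty p), fun _ => inProd_of_right E₁ E₂ t₂ G⟩
  push Not at t₁ t₂
  obtain ⟨H₁, i₁, t₁⟩ := t₁
  obtain ⟨H₂, i₂, t₂⟩ := t₂
  let f : Fin 2 → Fin (max 2 (n₁ + n₂)) := Fin.castLE (le_max_left _ _)
  let g : Fin n₁ ⊕ Fin n₂ → Fin (max 2 (n₁ + n₂)) :=
    fun z => Fin.castLE (le_max_right _ _) (finSumFinEquiv z)
  have hf : Function.Injective f := Fin.castLE_injective _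
  have hg : Function.Injective g :=
    (Fin.castLE_injective _).comp finSumFinEquiv.injective
  refine ⟨renameSet f {wolf} ∪ renameSet g (sigma E₁ E₂), fun G _ => ?_⟩
  rw [hprod, inProd_iff E₁ E₂ t₁ t₂ G, satisfies_union, satisfies_renameSet hf,
    satisfies_renameSet hg]

end product

end Pool.Agent.LGroupRank
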