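import Pool.Agent.LGroupRank.Chain

/-!
A transitive action on a chain with maximal stabilizers that are not trivial on the chain:
the stabilizer of a point acts 2-transitively on some set.
-/

set_option autoImplicit false

namespace Pool.Agent.LGroupRank

universe u v

open MulAction

set_option linter.unusedSectionVars false

variable {G : Type u} {T : Type v} [LGroup G] [LinearOrder T] [MulAction G T] [LAct G T]

theorem mabs_smul_of_fixed {g : G} {x : T} (h : g • x = x) : |g|ₘ • x = x := by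
  have h' : g⁻¹ • x = x := by rw [inv_smul_eq_iff, h]
  rw [mabs, LAct.sup_smul, h, h', max_self]

theorem solid_stabilizer (x : T) : Solid (stabilizer G x) := by
  intro a ha y hy
  rw [mem_stabilizer_iff] at ha ⊢
  have h1 : |y|ₘ • x ≤ x := by
    have := le_smul_of_le hy x
    rwa [mabs_smul_of_fixed ha] at this
  apply le_antisymm
  · exact (le_smul_of_le (le_mabs_self y) x).trans h1
  · have := (le_smul_of_le (inv_le_mabs y) x).trans h1
    rw [← smul_le_iff y, smul_inv_smul] at this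
    exact this

/-- The stabilizer of `x` is a maximal convex ℓ-subgroup. -/
def MaxStab (G : Type u) {T : Type v} [LGroup G] [LinearOrder T] [MulAction G T] (x : T) : Prop :=
  ∀ E : Subgroup G, Solid E → stabilizer G x ≤ E → E = stabilizer G x ∨ E = ⊤

theorem MaxStab.all [IsPretransitive G T] {α : T} (h : MaxStab G α) (β : T) : MaxStab G β := by
  obtain ⟨k, rfl⟩ := exists_smul_eq G α β
  intro E hE hle
  have hstab : ∀ g : G, g ∈ stabilizer G (k • α) ↔ k⁻¹ * g * k ∈ stabilizer G α := by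
    intro g
    rw [mem_stabilizer_iff, mem_stabilizer_iff, mul_smul, mul_smul, inv_smul_eq_iff]
  rcases h (E.map (MulAut.conj k⁻¹).toMonoidHom) (solid_conj hE _) (by
    intro g hg
    rw [mem_map_conj]
    apply hle
    rw [hstab]
    simpa [mul_assoc] using hg) with h1 | h1
  · left
    ext g
    rw [hstab, ← h1, mem_map_conj]
    simp [mul_assoc]
  · right
    rw [eq_top_iff]
    intro g _
    have : k⁻¹ * g * k ∈ E.map (MulAut.conj k⁻¹).toMonoidHom := h1 ▸ Subgroup.mem_top _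
    rw [mem_map_conj] at this
    simpa [mul_assoc] using this

section main

variable [IsPretransitive G T] {α : T}

theorem exists_moved_above (hmax : MaxStab G α) {g : G} (hg : g ∈ stabilizer G α) {β : T}
    (hgβ : g • β ≠ β) : ∃ β' : T, α < β' ∧ ∃ g' ∈ stabilizer G α, g' • β' ≠ β' := by
  have hβα : β ≠ α := by
    rintro rfl
    exact hgβ hg
  rcases lt_or_gt_of_ne hβα with hlt | hgt
  · -- `β < α`
    obtain ⟨k, hk⟩ := exists_smul_eq G β α
    have hnot : ¬ stabilizer G β ≤ stabilizer G α := by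
      intro hle
      rcases hmax.all β _ (solid_stabilizer α) hle with h | h
      · apply hgβ
        rw [h] at hg
        exact hg
      · have : k⁻¹ ∈ stabilizer G α := h ▸ Subgroup.mem_top _
        rw [mem_stabilizer_iff, inv_smul_eq_iff] at this
        exact hβα (smul_left_cancel k (hk.trans this))
    obtain ⟨h, hh, hh'⟩ := SetLike.not_le_iff_exists.mp hnot
    refine ⟨k • α, ?_, k * h * k⁻¹, ?_, ?_⟩
    · rw [← hk, smul_lt_iff, hk]
      exact hlt
    · rw [mem_stabilizer_iff, ← hk, mul_smul, mul_smul, inv_smul_smul, mem_stabilizer_iff.mp hh]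
    · rw [mul_smul, mul_smul, inv_smul_smul]
      intro hcon
      exact hh' (smul_left_cancel k hcon)
  · exact ⟨β, hgt, g, hg, hgβ⟩

/-- The orbit of `β₀` under the stabilizer of `α`. -/
def orb (G : Type u) {T : Type v} [LGroup G] [MulAction G T] (α β₀ : T) : Set T :=
  {x | ∃ g ∈ stabilizer G α, g • β₀ = x}

theorem orb_smul {β₀ : T} {g : G} (hg : g ∈ stabilizer G α) {x : T} (hx : x ∈ orb G α β₀) :
    g • x ∈ orb G α β₀ := by
  obtain ⟨h, hh, rfl⟩ := hx
  exact ⟨g * h, mul_mem hg hh, mul_smul _ _ _⟩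

theorem orb_trans {β₀ x y : T} (hx : x ∈ orb G α β₀) (hy : y ∈ orb G α β₀) :
    ∃ g ∈ stabilizer G α, g • x = y := by
  obtain ⟨h, hh, rfl⟩ := hx
  obtain ⟨k, hk, rfl⟩ := hy
  exact ⟨k * h⁻¹, mul_mem hk (inv_mem hh), by rw [mul_smul, inv_smul_smul]⟩

theorem orb_lt {β₀ x : T} (h0 : α < β₀) (hx : x ∈ orb G α β₀) : α < x := by
  obtain ⟨h, hh, rfl⟩ := hx
  rw [← mem_stabilizer_iff.mp hh, smul_lt_iff]
  exact h0

/-- The key property: the stabilizer of `α` and `β` is unbounded on the part of the orbit that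
lies above `β`. -/
theorem orb_unbounded (hmax : MaxStab G α) {β₀ β γ γ' : T} (h0 : α < β₀)
    (hβ : β ∈ orb G α β₀) (hγ : γ ∈ orb G α β₀) (hγ' : γ' ∈ orb G α β₀) (hβγ : β < γ) :
    ∃ h ∈ stabilizer G α, h • β = β ∧ γ' ≤ h • γ := by
  by_contra hcon
  push Not at hcon
  -- the lower set `Y`
  let Y : Set T := {x | ∃ h ∈ stabilizer G α, h • β = β ∧ x ≤ h • γ}
  have hYlow : ∀ x ∈ Y, ∀ y, y ≤ x → y ∈ Y := by
    rintro x ⟨h, h1, h2, h3⟩ y hy
    exact ⟨h, h1, h2, hy.trans h3⟩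
  have hγY : γ ∈ Y := ⟨1, one_mem _, one_smul _ _, by rw [one_smul]⟩
  have hγ'Y : γ' ∉ Y := by
    rintro ⟨h, h1, h2, h3⟩
    exact absurd h3 (not_le.mpr (hcon h h1 h2))
  have hY : ∀ g ∈ stabilizer G α, g • β = β → ∀ x ∈ Y, g • x ∈ Y := by
    rintro g hg hgβ x ⟨h, h1, h2, h3⟩
    exact ⟨g * h, mul_mem hg h1, by rw [mul_smul, h2, hgβ],
      by rw [mul_smul]; exact LAct.smul_mono _ _ _ h3⟩
  -- primality
  have hprime : (∀ g ∈ stabilizer G α, ∀ x ∈ Y, g • x ∈ Y) ∨
      (∀ g ∈ stabilizer G β, ∀ x ∈ Y, g • x ∈ Y) := by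
    by_contra hno
    push Not at hno
    obtain ⟨⟨g₁, hg₁, x₁, hx₁, hn₁⟩, g₂, hg₂, x₂, hx₂, hn₂⟩ := hno
    have hx : max x₁ x₂ ∈ Y := by
      rcases max_choice x₁ x₂ with h | h <;> rw [h] <;> assumption
    have hα : ((g₁ ⊔ 1) ⊓ (g₂ ⊔ 1)) • α = α := by
      rw [LAct.inf_smul, sup_one_smul, sup_one_smul, mem_stabilizer_iff.mp hg₁, max_self]
      exact min_eq_left (le_max_right _ _)
    have hβ' : ((g₁ ⊔ 1) ⊓ (g₂ ⊔ 1)) • β = β := by
      rw [LAct.inf_smul, sup_one_smul, sup_one_smul, mem_stabilizer_iff.mp hg₂, max_self]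
      exact min_eq_right (le_max_right _ _)
    have h3 := hY _ hα hβ' _ hx
    rw [LAct.inf_smul] at h3
    rcases min_choice ((g₁ ⊔ 1) • max x₁ x₂) ((g₂ ⊔ 1) • max x₁ x₂) with h | h
    · rw [h] at h3
      refine hn₁ (hYlow _ h3 _ ?_)
      exact (LAct.smul_mono g₁ _ _ (le_max_left _ _)).trans (le_smul_of_le le_sup_left _)
    · rw [h] at h3
      refine hn₂ (hYlow _ h3 _ ?_)
      exact (LAct.smul_mono g₂ _ _ (le_max_right _ _)).trans (le_smul_of_le le_sup_left _)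
  rcases hprime with hα | hβY
  · obtain ⟨g, hg, hgγ⟩ := orb_trans hγ hγ'
    exact hγ'Y (hgγ ▸ hα g hg γ hγY)
  · -- the relation `y ∈ Y(x)`
    let R : T → T → Prop := fun x y => ∃ k : G, k • β = x ∧ k⁻¹ • y ∈ Y
    have hRall : ∀ {x y : T} {k : G}, k • β = x → R x y → k⁻¹ • y ∈ Y := by
      rintro x y k hk ⟨k', hk', hy⟩
      have : k⁻¹ * k' ∈ stabilizer G β := by
        rw [mem_stabilizer_iff, mul_smul, hk', ← hk, inv_smul_smul]
      have h2 := hβY _ this _ hy
      rwa [mul_smul, smul_inv_smul] at h2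
    have hRsmul : ∀ (g : G) {x y : T}, R x y → R (g • x) (g • y) := by
      rintro g x y ⟨k, hk, hy⟩
      exact ⟨g * k, by rw [mul_smul, hk], by rwa [mul_inv_rev, mul_smul, inv_smul_smul]⟩
    have hRlow : ∀ {x y z : T}, R x y → z ≤ y → R x z := by
      rintro x y z ⟨k, hk, hy⟩ hz
      exact ⟨k, hk, hYlow _ hy _ (LAct.smul_mono _ _ _ hz)⟩
    have hRmono : ∀ {x x' y : T}, x ≤ x' → R x y → R x' y := by
      rintro x x' y hx ⟨k, hk, hy⟩
      obtain ⟨k', hk'⟩ := exists_smul_eq G β x'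
      refine ⟨k ⊔ k', by rw [LAct.sup_smul, hk, hk', max_eq_right hx], hYlow _ hy _ ?_⟩
      exact le_smul_of_le (inv_le_inv_iff.mpr le_sup_left) _
    -- iterates
    let Rn : ℕ → T → T → Prop := fun n => Nat.rec (fun x y => y ≤ x)
      (fun _ P x y => ∃ z, P x z ∧ R z y) n
    have hRn0 : ∀ {x y : T}, Rn 0 x y ↔ y ≤ x := Iff.rfl
    have hRnS : ∀ {n : ℕ} {x y : T}, Rn (n + 1) x y ↔ ∃ z, Rn n x z ∧ R z y := Iff.rfl
    have hRnsmul : ∀ (n : ℕ) (g : G) {x y : T}, Rn n x y → Rn n (g • x) (g • y) := by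
      intro n g
      induction n with
      | zero => exact fun h => hRn0.mpr (LAct.smul_mono _ _ _ (hRn0.mp h))
      | succ n ih =>
        intro x y h
        obtain ⟨z, hz, hzy⟩ := hRnS.mp h
        exact hRnS.mpr ⟨g • z, ih hz, hRsmul g hzy⟩
    have hRnlow : ∀ (n : ℕ) {x y z : T}, Rn n x y → z ≤ y → Rn n x z := by
      intro n x y z h hz
      cases n with
      | zero => exact hRn0.mpr (hz.trans (hRn0.mp h))
      | succ n =>
        obtain ⟨w, hw, hwy⟩ := hRnS.mp h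
        exact hRnS.mpr ⟨w, hw, hRlow hwy hz⟩
    have hRntrans : ∀ (n m : ℕ) {x y z : T}, Rn n x y → Rn m y z → Rn (n + m) x z := by
      intro n m
      induction m with
      | zero => exact fun h h' => hRnlow n h (hRn0.mp h')
      | succ m ih =>
        intro x y z h h'
        obtain ⟨w, hw, hwz⟩ := hRnS.mp h'
        exact hRnS.mpr ⟨w, ih h hw, hwz⟩
    -- the convex ℓ-subgroup `Q`
    have hmulQ : ∀ {n m : ℕ} {a b : G}, Rn n β (a • β) → Rn m β (b • β) →
        Rn (n + m) β ((a * b) • β) := by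
      intro n m a b ha hb
      rw [mul_smul]
      exact hRntrans n m ha (hRnsmul m a hb)
    let Q : Subgroup G :=
      { carrier := {g | ∃ n, Rn n β (|g|ₘ • β)}
        one_mem' := ⟨0, by rw [mabs_one, one_smul]; exact hRn0.mpr le_rfl⟩
        mul_mem' := by
          rintro g h ⟨n, hn⟩ ⟨m, hm⟩
          exact ⟨n + m + n, hRnlow _ (hmulQ (hmulQ hn hm) hn)
            (le_smul_of_le (mabs_mul_le_three g h) β)⟩
        inv_mem' := by
          rintro g ⟨n, hn⟩
          exact ⟨n, by simpa using hn⟩ }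
    have hQsolid : Solid Q := by
      rintro a ⟨n, hn⟩ x hx
      exact ⟨n, hRnlow n hn (le_smul_of_le hx β)⟩
    have hQle : stabilizer G β ≤ Q := by
      intro g hg
      exact ⟨0, hRn0.mpr (mabs_smul_of_fixed hg).le⟩
    have hQtop : Q = ⊤ := by
      rcases (hmax.all β) Q hQsolid hQle with h | h
      · exfalso
        obtain ⟨k, hk⟩ := exists_smul_eq G β γ
        have hkQ : k ∈ Q := by
          refine ⟨0 + 1, (hRnS (n := 0)).mpr ⟨β, hRn0.mpr le_rfl, 1, one_smul _ _, ?_⟩⟩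
          rw [inv_one, one_smul]
          have : |k|ₘ • β = γ := by
            rw [mabs, LAct.sup_smul, hk]
            refine max_eq_left ?_
            have h1 : k⁻¹ • β < β := by
              rw [← smul_lt_iff k, smul_inv_smul, hk]
              exact hβγ
            exact (h1.trans hβγ).le
          rw [this]
          exact hγY
        rw [h, mem_stabilizer_iff, hk] at hkQ
        exact hβγ.ne' hkQ
      · exact h
    -- `β` is reached from `α`
    obtain ⟨n, hn⟩ : ∃ n, Rn n α β := by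
      obtain ⟨g, hg⟩ := exists_smul_eq G α β
      obtain ⟨c, hc⟩ := exists_smul_eq G β α
      have hmem : c⁻¹ * g * c ∈ Q := hQtop ▸ Subgroup.mem_top _
      obtain ⟨n, hn⟩ := hmem
      refine ⟨n, ?_⟩
      have h1 : c⁻¹ • β ≤ |c⁻¹ * g * c|ₘ • β := by
        refine le_trans ?_ (le_smul_of_le (le_mabs_self _) β)
        rw [mul_smul, mul_smul, hc, hg]
      have h2 := hRnsmul n c (hRnlow n hn h1)
      rwa [hc, smul_inv_smul] at h2
    -- but it is not
    have hnot : ∀ (n : ℕ) (x : T), Rn n α x → ∀ δ ∈ orb G α β₀, x < δ := by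
      intro n
      induction n with
      | zero => exact fun x hx δ hδ => (hRn0.mp hx).trans_lt (orb_lt h0 hδ)
      | succ n ih =>
        intro x hx δ hδ
        obtain ⟨z, hz, hzx⟩ := hRnS.mp hx
        by_contra hle
        rw [not_lt] at hle
        have h1 : R z δ := hRlow hzx hle
        obtain ⟨k, hk, hkδ⟩ := orb_trans hδ hγ'
        have h2 : k⁻¹ • β ∈ orb G α β₀ := orb_smul (inv_mem hk) hβ
        have h3 : R (k⁻¹ • β) δ := hRmono (ih z hz _ h2).le h1
        have h4 := hRsmul k h3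
        rw [smul_inv_smul, hkδ] at h4
        have h5 := hRall (one_smul G β) h4
        rw [inv_one, one_smul] at h5
        exact hγ'Y h5
    exact lt_irrefl β (hnot n β hn β hβ)

theorem orb_twoTrans (hmax : MaxStab G α) {β₀ : T} (h0 : α < β₀) :
    TwoTrans (stabilizer G α) (orb G α β₀) := by
  -- moving `γ` to `γ'` with `β` fixed
  have key : ∀ β ∈ orb G α β₀, ∀ γ ∈ orb G α β₀, ∀ γ' ∈ orb G α β₀, β < γ → γ ≤ γ' →
      ∃ g ∈ stabilizer G α, g • β = β ∧ g • γ = γ' := by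
    intro β hβ γ hγ γ' hγ' h1 h2
    obtain ⟨h, hh, hhβ, hhγ⟩ := orb_unbounded hmax h0 hβ hγ hγ' h1
    obtain ⟨g, hg1, hg2, -, -⟩ := exists_between h2 hhγ
    exact ⟨g, hg2 α hh, hg2 β hhβ, hg1⟩
  refine ⟨fun g hg => ?_, fun g hg x hx => orb_smul hg hx, fun a ha b hb => orb_trans ha hb, ?_⟩
  · rw [mem_stabilizer_iff, sup_one_smul, mem_stabilizer_iff.mp hg, max_self]
  · intro a ha b hb c hc d hd hab hcd
    obtain ⟨h, hh, hha⟩ := orb_trans ha hc
    have hb' : h • b ∈ orb G α β₀ := orb_smul hh hb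
    have hcb : c < h • b := by
      rw [← hha, smul_lt_iff]
      exact hab
    rcases le_total (h • b) d with hle | hle
    · obtain ⟨g, hg, hgc, hgb⟩ := key c hc _ hb' d hd hcb hle
      exact ⟨g * h, mul_mem hg hh, by rw [mul_smul, hha, hgc], by rw [mul_smul, hgb]⟩
    · obtain ⟨g, hg, hgc, hgb⟩ := key c hc d hd _ hb' hcd hle
      refine ⟨g⁻¹ * h, mul_mem (inv_mem hg) hh, ?_, ?_⟩
      · rw [mul_smul, hha, inv_smul_eq_iff, hgc]
      · rw [mul_smul, inv_smul_eq_iff, hgb]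

/-- A normal convex ℓ-subgroup with an element fixing `α` and moving a point of the orbit
also acts 2-transitively. -/
theorem normal_twoTrans {β₀ : T} (h2 : TwoTrans (stabilizer G α) (orb G α β₀))
    {N : Subgroup G} (hN : Solid N) (hnorm : N.Normal) {ν₀ : G} (hν₀ : ν₀ ∈ N)
    (hν₀α : ν₀ ∈ stabilizer G α) {δ : T} (hδ : δ ∈ orb G α β₀) (hmove : ν₀ • δ ≠ δ) :
    TwoTrans (N ⊓ stabilizer G α) (orb G α β₀) := by
  -- a positive element moving `δ` up
  obtain ⟨ν, hνN, hνα, hν1, hνδ⟩ :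
      ∃ ν ∈ N, ν ∈ stabilizer G α ∧ 1 ≤ ν ∧ δ < ν • δ := by
    refine ⟨|ν₀|ₘ, hN.mabs_mem_iff.mpr hν₀, mabs_smul_of_fixed hν₀α, one_le_mabs _, ?_⟩
    refine lt_of_le_of_ne (le_smul_of_one_le (one_le_mabs _) _) fun hcon => hmove ?_
    have : |ν₀|ₘ ∈ stabilizer G δ := hcon.symm
    exact (solid_stabilizer δ).mabs_mem_iff.mp this
  have hνδΔ : ν • δ ∈ orb G α β₀ := orb_smul hνα hδ
  have key : ∀ a ∈ orb G α β₀, ∀ b ∈ orb G α β₀, a < b →
      ∃ ν' ∈ N, ν' ∈ stabilizer G α ∧ 1 ≤ ν' ∧ ν' • a = b := by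
    intro a ha b hb hab
    obtain ⟨g, hg, hga, hgb⟩ := h2.trans2 δ hδ _ hνδΔ a ha b hb hνδ hab
    refine ⟨g * ν * g⁻¹, hnorm.conj_mem ν hνN g, mul_mem (mul_mem hg hνα) (inv_mem hg), ?_, ?_⟩
    · have := LGroup.mul_le_mul_two_sided g g⁻¹ 1 ν hν1
      simpa using this
    · rw [← hga, mul_smul, mul_smul, inv_smul_smul, hgb]
  have key2 : ∀ c ∈ orb G α β₀, ∀ a ∈ orb G α β₀, ∀ b ∈ orb G α β₀, c < a → a < b →
      ∃ n ∈ N, n ∈ stabilizer G α ∧ n • c = c ∧ n • a = b := by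
    intro c hc a ha b hb hca hab
    obtain ⟨ν', hν'N, hν'α, hν'1, hν'a⟩ := key a ha b hb hab
    obtain ⟨k, hk, hkc, hka⟩ := h2.trans2 c hc a ha c hc b hb hca (hca.trans hab)
    refine ⟨(ν' ⊓ k) ⊔ 1, ?_, ?_, ?_, ?_⟩
    · exact hN.mem_of_le hν'N le_sup_right (sup_le inf_le_left hν'1)
    · rw [mem_stabilizer_iff, sup_one_smul, LAct.inf_smul, mem_stabilizer_iff.mp hν'α,
        mem_stabilizer_iff.mp hk, min_self, max_self]
    · rw [sup_one_smul, LAct.inf_smul, hkc]
      exact max_eq_right (min_le_right _ _)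
    · rw [sup_one_smul, LAct.inf_smul, hν'a, hka, min_self]
      exact max_eq_left hab.le
  have tr1 : ∀ a ∈ orb G α β₀, ∀ b ∈ orb G α β₀, ∃ g ∈ N ⊓ stabilizer G α, g • a = b := by
    intro a ha b hb
    rcases lt_trichotomy a b with hlt | heq | hgt
    · obtain ⟨g, hg1, hg2, -, hg3⟩ := key a ha b hb hlt
      exact ⟨g, ⟨hg1, hg2⟩, hg3⟩
    · exact ⟨1, one_mem _, by rw [one_smul, heq]⟩
    · obtain ⟨g, hg1, hg2, -, hg3⟩ := key b hb a ha hgt
      exact ⟨g⁻¹, inv_mem (show g ∈ N ⊓ stabilizer G α from ⟨hg1, hg2⟩),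
        by rw [inv_smul_eq_iff, hg3]⟩
  refine ⟨fun g hg => ⟨hN.sup_mem hg.1 (one_mem N), h2.sup_mem g hg.2⟩,
    fun g hg x hx => h2.smul_mem g hg.2 x hx, tr1, ?_⟩
  intro a ha b hb c hc d hd hab hcd
  obtain ⟨h, hh, hha⟩ := tr1 a ha c hc
  have hb' : h • b ∈ orb G α β₀ := h2.smul_mem h hh.2 b hb
  have hcb : c < h • b := by
    rw [← hha, smul_lt_iff]
    exact hab
  rcases lt_trichotomy (h • b) d with hlt | heq | hgt
  · obtain ⟨g, hgN, hgα, hgc, hgb⟩ := key2 c hc _ hb' d hd hcb hlt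
    exact ⟨g * h, mul_mem (show g ∈ N ⊓ stabilizer G α from ⟨hgN, hgα⟩) hh,
      by rw [mul_smul, hha, hgc], by rw [mul_smul, hgb]⟩
  · exact ⟨h, hh, hha, heq⟩
  · obtain ⟨g, hgN, hgα, hgc, hgb⟩ := key2 c hc d hd _ hb' hcd hgt
    refine ⟨g⁻¹ * h, mul_mem (inv_mem (show g ∈ N ⊓ stabilizer G α from ⟨hgN, hgα⟩)) hh, ?_, ?_⟩
    · rw [mul_smul, hha, inv_smul_eq_iff, hgc]
    · rw [mul_smul, inv_smul_eq_iff, hgb]

end main

end Pool.Agent.LGroupRank
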