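import Pool.Agent.LGroupRank.Defs

/-!
Convex ℓ-subgroups (solid subgroups), values, and the chain of cosets of a prime subgroup.
-/

set_option autoImplicit false

namespace Pool.Agent.LGroupRank

universe u v w

section solid

variable {G : Type u} [LGroup G]

/-- Convex ℓ-subgroups. -/
def Solid (C : Subgroup G) : Prop := ∀ a ∈ C, ∀ x : G, |x|ₘ ≤ |a|ₘ → x ∈ C

theorem mabs_mul_le_three (x y : G) : |x * y|ₘ ≤ |x|ₘ * |y|ₘ * |x|ₘ := by
  refine mabs_le'.mpr ⟨?_, ?_⟩
  · calc x * y ≤ |x|ₘ * |y|ₘ := mul_le_mul' (le_mabs_self x) (le_mabs_self y)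
      _ ≤ |x|ₘ * |y|ₘ * |x|ₘ := le_mul_of_one_le_right' (one_le_mabs x)
  · calc (x * y)⁻¹ = y⁻¹ * x⁻¹ := mul_inv_rev x y
      _ ≤ |y|ₘ * |x|ₘ := mul_le_mul' (inv_le_mabs y) (inv_le_mabs x)
      _ ≤ |x|ₘ * (|y|ₘ * |x|ₘ) := le_mul_of_one_le_left' (one_le_mabs x)
      _ = |x|ₘ * |y|ₘ * |x|ₘ := (mul_assoc _ _ _).symm

theorem mabs_conj (g x : G) : |g * x * g⁻¹|ₘ = g * |x|ₘ * g⁻¹ := by
  simp only [mabs, mul_inv_rev, inv_inv, mul_sup, sup_mul, mul_assoc]

theorem mabs_conj' (g x : G) : |g⁻¹ * x * g|ₘ = g⁻¹ * |x|ₘ * g := by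
  simpa using mabs_conj g⁻¹ x

namespace Solid

variable {C : Subgroup G}

theorem mabs_mem_iff (hC : Solid C) {a : G} : |a|ₘ ∈ C ↔ a ∈ C :=
  ⟨fun h => hC _ h _ (by simp), fun h => hC _ h _ (by simp)⟩

theorem mem_of_le (hC : Solid C) {a x : G} (ha : a ∈ C) (h1 : 1 ≤ x) (h : x ≤ a) : x ∈ C :=
  hC a ha x (by rw [mabs_of_one_le h1]; exact h.trans (le_mabs_self a))

theorem mem_of_mabs_le (hC : Solid C) {a x : G} (ha : a ∈ C) (h : |x|ₘ ≤ a) : x ∈ C :=
  hC a ha x (h.trans (le_mabs_self a))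

theorem sup_mem (hC : Solid C) {a b : G} (ha : a ∈ C) (hb : b ∈ C) : a ⊔ b ∈ C := by
  have h : |a|ₘ * |b|ₘ ∈ C := mul_mem (hC.mabs_mem_iff.mpr ha) (hC.mabs_mem_iff.mpr hb)
  refine hC.mem_of_mabs_le h (mabs_le'.mpr ⟨sup_le ?_ ?_, ?_⟩)
  · exact (le_mabs_self a).trans (le_mul_of_one_le_right' (one_le_mabs b))
  · exact (le_mabs_self b).trans (le_mul_of_one_le_left' (one_le_mabs a))
  · rw [inv_sup]
    exact inf_le_left.trans ((inv_le_mabs a).trans (le_mul_of_one_le_right' (one_le_mabs b)))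

theorem inf_mem (hC : Solid C) {a b : G} (ha : a ∈ C) (hb : b ∈ C) : a ⊓ b ∈ C := by
  have h := inv_mem (hC.sup_mem (inv_mem ha) (inv_mem hb))
  rwa [inv_sup, inv_inv, inv_inv] at h

theorem convex (hC : Solid C) {a b x : G} (ha : a ∈ C) (hb : b ∈ C) (h1 : a ≤ x) (h2 : x ≤ b) :
    x ∈ C := by
  refine hC.mem_of_mabs_le (hC.sup_mem (inv_mem ha) hb) (mabs_le'.mpr ⟨?_, ?_⟩)
  · exact h2.trans le_sup_right
  · exact (inv_le_inv_iff.mpr h1).trans le_sup_left

theorem eval_mem (hC : Solid C) {X : Type} {x : X → G} (hx : ∀ i, x i ∈ C) (t : LTerm X) :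
    t.eval x ∈ C := by
  induction t with
  | var i => exact hx i
  | one => exact one_mem C
  | mul s t hs ht => exact mul_mem hs ht
  | inv s hs => exact inv_mem hs
  | inf s t hs ht => exact hC.inf_mem hs ht
  | sup s t hs ht => exact hC.sup_mem hs ht

end Solid

theorem LIdeal.solid (N : LIdeal G) : Solid N.carrier := by
  intro a ha x h
  exact N.mem_of_abs_le (N.mabs_mem ha) ((le_mabs_self x).trans h) ((inv_le_mabs x).trans h)

theorem solid_sInf {S : Set (Subgroup G)} (h : ∀ C ∈ S, Solid C) : Solid (sInf S) := by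
  intro a ha x hx
  rw [Subgroup.mem_sInf] at ha ⊢
  exact fun C hC => h C hC a (ha C hC) x hx

/-- The convex ℓ-subgroup generated by a set. -/
def solidClosure (S : Set G) : Subgroup G := sInf {C | Solid C ∧ S ⊆ C}

theorem solid_solidClosure (S : Set G) : Solid (solidClosure S) :=
  solid_sInf fun _ h => h.1

theorem subset_solidClosure (S : Set G) : S ⊆ solidClosure S := by
  intro x hx
  rw [SetLike.mem_coe, solidClosure, Subgroup.mem_sInf]
  exact fun C hC => hC.2 hx

theorem solidClosure_le {S : Set G} {C : Subgroup G} (hC : Solid C) (h : S ⊆ C) :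
    solidClosure S ≤ C := sInf_le ⟨hC, h⟩

/-- Conjugates of convex ℓ-subgroups. -/
theorem solid_conj {C : Subgroup G} (hC : Solid C) (g : G) :
    Solid (C.map (MulAut.conj g).toMonoidHom) := by
  rintro _ ⟨a, ha, rfl⟩ x hx
  refine ⟨g⁻¹ * x * g, hC a ha _ ?_, by simp [mul_assoc]⟩
  have h : |x|ₘ ≤ g * |a|ₘ * g⁻¹ := by
    simpa [mabs_conj] using hx
  rw [mabs_conj']
  calc g⁻¹ * |x|ₘ * g ≤ g⁻¹ * (g * |a|ₘ * g⁻¹) * g :=
        mul_le_mul_left (mul_le_mul_right h _) _
    _ = |a|ₘ := by group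

theorem mem_map_conj {C : Subgroup G} {g x : G} :
    x ∈ C.map (MulAut.conj g).toMonoidHom ↔ g⁻¹ * x * g ∈ C := by
  constructor
  · rintro ⟨a, ha, rfl⟩
    simpa [mul_assoc] using ha
  · intro h
    exact ⟨_, h, by simp [mul_assoc]⟩

theorem solidClosure_normal {S : Set G} (hS : ∀ x ∈ S, ∀ g : G, g * x * g⁻¹ ∈ S) :
    (solidClosure S).Normal := by
  refine ⟨fun n hn g => ?_⟩
  have h : solidClosure S ≤ (solidClosure S).map (MulAut.conj g⁻¹).toMonoidHom := by
    refine solidClosure_le (solid_conj (solid_solidClosure S) _) fun x hx => ?_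
    refine mem_map_conj.mpr (subset_solidClosure S ?_)
    simpa using hS x hx g
  simpa using mem_map_conj.mp (h hn)

/-- `(a b) ∧ c ≤ (a ∧ c) (b ∧ c)` for positive elements. -/
theorem mul_inf_le {a b c : G} (ha : 1 ≤ a) (hb : 1 ≤ b) (hc : 1 ≤ c) :
    (a * b) ⊓ c ≤ (a ⊓ c) * (b ⊓ c) := by
  rw [mul_inf, inf_mul, inf_mul]
  refine le_inf (le_inf inf_le_left ?_) (le_inf ?_ ?_)
  · exact inf_le_right.trans (le_mul_of_one_le_right' hb)
  · exact inf_le_right.trans (le_mul_of_one_le_left' ha)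
  · exact inf_le_right.trans (le_mul_of_one_le_right' hc)

/-- The set of `x` with `|x| ∧ a ∈ C`, a convex ℓ-subgroup. -/
def relPolar (C : Subgroup G) (hC : Solid C) (a : G) (ha : 1 ≤ a) : Subgroup G where
  carrier := {x | |x|ₘ ⊓ a ∈ C}
  one_mem' := by
    have : (1 : G) ⊓ a = 1 := inf_eq_left.mpr ha
    simp [this, one_mem]
  mul_mem' := by
    intro x y hx hy
    refine hC.mem_of_le (mul_mem (mul_mem hx hy) hx) (le_inf (one_le_mabs _) ha) ?_
    have h1 := mul_inf_le (one_le_mabs x) (one_le_mabs y) ha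
    have h2 := mul_inf_le (one_le_mul (one_le_mabs x) (one_le_mabs y)) (one_le_mabs x) ha
    calc |x * y|ₘ ⊓ a ≤ (|x|ₘ * |y|ₘ * |x|ₘ) ⊓ a := inf_le_inf_right _ (mabs_mul_le_three x y)
      _ ≤ _ := h2.trans (mul_le_mul_left h1 _)
  inv_mem' := by
    intro x hx
    simpa using hx

theorem solid_relPolar (C : Subgroup G) (hC : Solid C) (a : G) (ha : 1 ≤ a) :
    Solid (relPolar C hC a ha) := by
  intro x hx y hy
  exact hC.mem_of_le (show |x|ₘ ⊓ a ∈ C from hx) (le_inf (one_le_mabs _) ha)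
    (inf_le_inf_right _ hy)

theorem le_relPolar (C : Subgroup G) (hC : Solid C) (a : G) (ha : 1 ≤ a) :
    C ≤ relPolar C hC a ha := by
  intro x hx
  exact hC.mem_of_le (hC.mabs_mem_iff.mpr hx) (le_inf (one_le_mabs _) ha) inf_le_left

/-- A prime convex ℓ-subgroup. -/
def PrimeSub (C : Subgroup G) : Prop := ∀ z : G, z ⊔ 1 ∈ C ∨ z⁻¹ ⊔ 1 ∈ C

/-- `D` is maximal among the convex ℓ-subgroups containing `C` and not containing `s`. -/
structure IsValueOver (C : Subgroup G) (s : G) (D : Subgroup G) : Prop where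
  solid : Solid D
  le : C ≤ D
  not_mem : s ∉ D
  maximal : ∀ E : Subgroup G, Solid E → D ≤ E → s ∉ E → E = D

theorem exists_value {C : Subgroup G} (hC : Solid C) {s : G} (hs : s ∉ C) :
    ∃ D, IsValueOver C s D := by
  have key := zorn_le_nonempty₀ {D : Subgroup G | Solid D ∧ C ≤ D ∧ s ∉ D} ?_ C
    ⟨hC, le_rfl, hs⟩
  · obtain ⟨D, hCD, hD⟩ := key
    refine ⟨D, hD.prop.1, hCD, hD.prop.2.2, fun E hE hDE hsE => ?_⟩
    exact le_antisymm (hD.le_of_ge ⟨hE, hCD.trans hDE, hsE⟩ hDE) hDE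
  · intro c hc hchain y hy
    have hdir : DirectedOn (fun x1 x2 => x1 ≤ x2) c := hchain.directedOn
    refine ⟨sSup c, ⟨?_, ?_, ?_⟩, fun z hz => le_sSup hz⟩
    · intro a ha x hx
      rw [Subgroup.mem_sSup_of_directedOn ⟨y, hy⟩ hdir] at ha ⊢
      obtain ⟨E, hE, haE⟩ := ha
      exact ⟨E, hE, (hc hE).1 a haE x hx⟩
    · exact (hc hy).2.1.trans (le_sSup hy)
    · rw [Subgroup.mem_sSup_of_directedOn ⟨y, hy⟩ hdir]
      rintro ⟨E, hE, hsE⟩
      exact (hc hE).2.2 hsE

theorem IsValueOver.prime {C D : Subgroup G} {s : G} (h : IsValueOver C s D) : PrimeSub D := by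
  intro z
  by_contra hcon
  push Not at hcon
  obtain ⟨h1, h2⟩ := hcon
  have hinf : (z ⊔ 1) ⊓ (z⁻¹ ⊔ 1) = 1 := oneLePart_inf_leOnePart_eq_one z
  have hz : (1 : G) ≤ z ⊔ 1 := le_sup_right
  have hz' : (1 : G) ≤ z⁻¹ ⊔ 1 := le_sup_right
  -- first step
  have hs : |s|ₘ ⊓ (z ⊔ 1) ∈ D := by
    by_contra hs
    have hE := h.maximal (relPolar D h.solid (z ⊔ 1) hz) (solid_relPolar _ _ _ _)
      (le_relPolar _ _ _ _) hs
    apply h2
    rw [← hE]
    change |z⁻¹ ⊔ 1|ₘ ⊓ (z ⊔ 1) ∈ D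
    rw [mabs_of_one_le hz', inf_comm, hinf]
    exact one_mem D
  have hs2 : |s|ₘ ⊓ |s|ₘ ∈ D := by
    by_contra hs2
    have hE := h.maximal (relPolar D h.solid |s|ₘ (one_le_mabs s)) (solid_relPolar _ _ _ _)
      (le_relPolar _ _ _ _) hs2
    apply h1
    rw [← hE]
    change |z ⊔ 1|ₘ ⊓ |s|ₘ ∈ D
    rw [mabs_of_one_le hz, inf_comm]
    exact hs
  rw [inf_idem, h.solid.mabs_mem_iff] at hs2
  exact h.not_mem hs2

end solid

/-! ### Action on a chain -/

/-- An action of an ℓ-group on a chain by order automorphisms for which the lattice operations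
are pointwise. -/
class LAct (G : Type u) (T : Type v) [LGroup G] [LinearOrder T] [MulAction G T] : Prop where
  smul_mono : ∀ (g : G) (x y : T), x ≤ y → g • x ≤ g • y
  sup_smul : ∀ (g h : G) (x : T), (g ⊔ h) • x = max (g • x) (h • x)
  inf_smul : ∀ (g h : G) (x : T), (g ⊓ h) • x = min (g • x) (h • x)

section cosets

variable {G : Type u} [LGroup G]

/-- `x ≤ y` modulo `C`. -/
def LeMod (C : Subgroup G) (x y : G) : Prop := ∃ c ∈ C, x ≤ y * c

theorem LeMod.trans {C : Subgroup G} {x y z : G} (h : LeMod C x y) (h' : LeMod C y z) :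
    LeMod C x z := by
  obtain ⟨c, hc, h⟩ := h
  obtain ⟨d, hd, h'⟩ := h'
  exact ⟨d * c, mul_mem hd hc, h.trans (by rw [← mul_assoc]; exact mul_le_mul_left h' c)⟩

theorem LeMod.of_le {C : Subgroup G} {x y : G} (h : x ≤ y) : LeMod C x y :=
  ⟨1, one_mem C, by simpa using h⟩

theorem LeMod.mul_left {C : Subgroup G} {x y : G} (g : G) (h : LeMod C x y) :
    LeMod C (g * x) (g * y) := by
  obtain ⟨c, hc, h⟩ := h
  exact ⟨c, hc, by rw [mul_assoc]; exact mul_le_mul_right h g⟩

theorem LeMod.mono {C D : Subgroup G} (hCD : C ≤ D) {x y : G} (h : LeMod C x y) :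
    LeMod D x y := by
  obtain ⟨c, hc, h⟩ := h
  exact ⟨c, hCD hc, h⟩

theorem leMod_total {C : Subgroup G} (hC : PrimeSub C) (x y : G) :
    LeMod C x y ∨ LeMod C y x := by
  rcases hC (y⁻¹ * x) with h | h
  · left
    refine ⟨_, h, ?_⟩
    rw [← inv_mul_le_iff_le_mul]
    exact le_sup_left
  · right
    refine ⟨_, h, ?_⟩
    rw [← inv_mul_le_iff_le_mul, mul_inv_rev, inv_inv]
    exact le_sup_left

theorem leMod_antisymm {C : Subgroup G} (hC : Solid C) {x y : G} (h : LeMod C x y)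
    (h' : LeMod C y x) : x⁻¹ * y ∈ C := by
  obtain ⟨c, hc, h⟩ := h
  obtain ⟨d, hd, h'⟩ := h'
  refine hC.convex (inv_mem hc) hd ?_ ?_
  · rwa [le_inv_mul_iff_mul_le, mul_inv_le_iff_le_mul]
  · rwa [inv_mul_le_iff_le_mul]

theorem leMod_congr {C : Subgroup G} {x x' y y' : G} (hx : x⁻¹ * x' ∈ C) (hy : y⁻¹ * y' ∈ C) :
    LeMod C x y → LeMod C x' y' := by
  rintro ⟨c, hc, h⟩
  refine ⟨(y⁻¹ * y')⁻¹ * c * (x⁻¹ * x'), mul_mem (mul_mem (inv_mem hy) hc) hx, ?_⟩
  calc x' = x * (x⁻¹ * x') := by group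
    _ ≤ (y * c) * (x⁻¹ * x') := mul_le_mul_left h _
    _ = y' * ((y⁻¹ * y')⁻¹ * c * (x⁻¹ * x')) := by group

/-- The chain of left cosets of a prime convex ℓ-subgroup. -/
@[reducible] noncomputable def cosetOrder (C : Subgroup G) (hC : Solid C) (hP : PrimeSub C) :
    LinearOrder (G ⧸ C) where
  le := Quotient.lift₂ (LeMod C) (by
    intro x y x' y' hx hy
    have hx' := QuotientGroup.leftRel_apply.mp hx
    have hy' := QuotientGroup.leftRel_apply.mp hy
    refine propext ⟨leMod_congr hx' hy', leMod_congr ?_ ?_⟩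
    · have := inv_mem hx'
      rwa [mul_inv_rev, inv_inv] at this
    · have := inv_mem hy'
      rwa [mul_inv_rev, inv_inv] at this)
  le_refl A := by
    induction A using QuotientGroup.induction_on with
    | H x => exact LeMod.of_le le_rfl
  le_trans A B D := by
    induction A using QuotientGroup.induction_on with
    | H x =>
    induction B using QuotientGroup.induction_on with
    | H y =>
    induction D using QuotientGroup.induction_on with
    | H z => exact fun h h' => LeMod.trans h h'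
  le_antisymm A B := by
    induction A using QuotientGroup.induction_on with
    | H x =>
    induction B using QuotientGroup.induction_on with
    | H y => exact fun h h' => QuotientGroup.eq.mpr (leMod_antisymm hC h h')
  le_total A B := by
    induction A using QuotientGroup.induction_on with
    | H x =>
    induction B using QuotientGroup.induction_on with
    | H y => exact leMod_total hP x y
  toDecidableLE := Classical.decRel _

/-- For every prime convex ℓ-subgroup `C`, `G` acts transitively on a chain, with `C` as the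
stabilizer of a point. -/
theorem exists_chain (C : Subgroup G) (hC : Solid C) (hP : PrimeSub C) :
    ∃ (T : Type u) (_ : LinearOrder T) (_ : MulAction G T) (t₀ : T),
      LAct G T ∧ MulAction.IsPretransitive G T ∧ MulAction.stabilizer G t₀ = C ∧
      ∀ g h : G, g • t₀ ≤ h • t₀ ↔ LeMod C g h := by
  let _ := cosetOrder C hC hP
  have hle : ∀ x y : G, ((x : G ⧸ C) ≤ (y : G ⧸ C)) ↔ LeMod C x y := fun x y => Iff.rfl
  have hsup : ∀ a b : G, ((a ⊔ b : G) : G ⧸ C) = max (a : G ⧸ C) (b : G ⧸ C) := by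
    intro a b
    rcases leMod_total hP a b with h | h
    · rw [max_eq_right ((hle a b).mpr h)]
      apply le_antisymm
      · obtain ⟨c, hc, h⟩ := h
        refine (hle _ _).mpr ⟨c ⊔ 1, hC.sup_mem hc (one_mem C), ?_⟩
        refine sup_le (h.trans (mul_le_mul_right le_sup_left b)) ?_
        exact le_mul_of_one_le_right' le_sup_right
      · exact (hle _ _).mpr (LeMod.of_le le_sup_right)
    · rw [max_eq_left ((hle b a).mpr h)]
      apply le_antisymm
      · obtain ⟨c, hc, h⟩ := h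
        refine (hle _ _).mpr ⟨c ⊔ 1, hC.sup_mem hc (one_mem C), ?_⟩
        refine sup_le ?_ (h.trans (mul_le_mul_right le_sup_left a))
        exact le_mul_of_one_le_right' le_sup_right
      · exact (hle _ _).mpr (LeMod.of_le le_sup_left)
  have hinf : ∀ a b : G, ((a ⊓ b : G) : G ⧸ C) = min (a : G ⧸ C) (b : G ⧸ C) := by
    intro a b
    rcases leMod_total hP a b with h | h
    · rw [min_eq_left ((hle a b).mpr h)]
      apply le_antisymm
      · exact (hle _ _).mpr (LeMod.of_le inf_le_left)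
      · obtain ⟨c, hc, h⟩ := h
        refine (hle _ _).mpr ⟨c ⊔ 1, hC.sup_mem hc (one_mem C), ?_⟩
        rw [inf_mul]
        refine le_inf ?_ (h.trans (mul_le_mul_right le_sup_left b))
        exact le_mul_of_one_le_right' le_sup_right
    · rw [min_eq_right ((hle b a).mpr h)]
      apply le_antisymm
      · exact (hle _ _).mpr (LeMod.of_le inf_le_right)
      · obtain ⟨c, hc, h⟩ := h
        refine (hle _ _).mpr ⟨c ⊔ 1, hC.sup_mem hc (one_mem C), ?_⟩
        rw [inf_mul]
        refine le_inf (h.trans (mul_le_mul_right le_sup_left a)) ?_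
        exact le_mul_of_one_le_right' le_sup_right
  refine ⟨G ⧸ C, inferInstance, inferInstance, ((1 : G) : G ⧸ C), ⟨?_, ?_, ?_⟩,
    inferInstance, ?_, ?_⟩
  · intro g A B
    induction A using QuotientGroup.induction_on with
    | H x =>
    induction B using QuotientGroup.induction_on with
    | H y => exact fun h => LeMod.mul_left g h
  · intro g h A
    induction A using QuotientGroup.induction_on with
    | H x =>
      change (((g ⊔ h) * x : G) : G ⧸ C) = max ((g * x : G) : G ⧸ C) ((h * x : G) : G ⧸ C)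
      rw [sup_mul, hsup]
  · intro g h A
    induction A using QuotientGroup.induction_on with
    | H x =>
      change (((g ⊓ h) * x : G) : G ⧸ C) = min ((g * x : G) : G ⧸ C) ((h * x : G) : G ⧸ C)
      rw [inf_mul, hinf]
  · exact MulAction.stabilizer_quotient C
  · intro g h
    change ((g * 1 : G) : G ⧸ C) ≤ ((h * 1 : G) : G ⧸ C) ↔ _
    rw [mul_one, mul_one]
    exact hle g h

theorem exists_chain_moving {g : G} (hg : g ≠ 1) :
    ∃ (T : Type u) (_ : LinearOrder T) (_ : MulAction G T) (t₀ : T),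
      LAct G T ∧ g • t₀ ≠ t₀ := by
  have hbot : Solid (⊥ : Subgroup G) := by
    intro a ha x hx
    rw [Subgroup.mem_bot] at ha ⊢
    subst ha
    rw [mabs_one] at hx
    obtain ⟨h1, h2⟩ := mabs_le'.mp hx
    exact le_antisymm h1 (Left.inv_le_one_iff.mp h2)
  obtain ⟨D, hD⟩ := exists_value hbot (s := g) (by simpa using hg)
  obtain ⟨T, i1, i2, t₀, h1, -, h3, -⟩ := exists_chain D hD.solid hD.prime
  refine ⟨T, i1, i2, t₀, h1, fun h => hD.not_mem ?_⟩
  rw [← h3]
  exact h

end cosets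

end Pool.Agent.LGroupRank
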