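import Pool.Agent.LGroupRank.Primitive

/-!
If an ℓ-group in a product of two proper varieties violated the normal-valued identity
`a b ≤ b² a²` (for `a, b ≥ 1`), one of the two varieties would contain all ℓ-groups.
-/

set_option autoImplicit false

namespace Pool.Agent.LGroupRank

universe u v u' v'

open MulAction

theorem eval_map {G : Type u} {H : Type v} [LGroup G] [LGroup H] (f : G → H)
    (h1 : f 1 = 1) (hmul : ∀ x y, f (x * y) = f x * f y) (hinv : ∀ x, f x⁻¹ = (f x)⁻¹)
    (hinf : ∀ x y, f (x ⊓ y) = f x ⊓ f y) (hsup : ∀ x y, f (x ⊔ y) = f x ⊔ f y)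
    {X : Type} (x : X → G) (t : LTerm X) : f (t.eval x) = t.eval (fun i => f (x i)) := by
  induction t with
  | var i => rfl
  | one => exact h1
  | mul s t hs ht => simp only [LTerm.eval, hmul, hs, ht]
  | inv s hs => simp only [LTerm.eval, hinv, hs]
  | inf s t hs ht => simp only [LTerm.eval, hinf, hs, ht]
  | sup s t hs ht => simp only [LTerm.eval, hsup, hs, ht]

section sub

variable {G : Type u} [LGroup G]

/-- A convex ℓ-subgroup as an ℓ-group. -/
@[reducible] def solidLGroup (K : Subgroup G) (hK : Solid K) : LGroup K where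
  __ := (inferInstance : Group K)
  __ := Subtype.lattice (P := fun x => x ∈ K)
    (fun _ _ hx hy => hK.sup_mem hx hy) (fun _ _ hx hy => hK.inf_mem hx hy)
  mul_le_mul_two_sided a b x y h := LGroup.mul_le_mul_two_sided (a : G) b x y h

/-- Data of two consecutive convex ℓ-subgroups `D < E`, `D` prime and not normal in `E`. -/
structure Bad (D E : Subgroup G) : Prop where
  solidD : Solid D
  primeD : PrimeSub D
  solidE : Solid E
  le : D ≤ E
  maximal : ∀ F : Subgroup G, Solid F → D ≤ F → F ≤ E → F = D ∨ F = E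
  not_normal : ∃ x ∈ E, ∃ c ∈ D, x * c * x⁻¹ ∉ D

theorem exists_bad {a b : G} (ha : 1 ≤ a) (hb : 1 ≤ b) (h : ¬ a * b ≤ b ^ 2 * a ^ 2) :
    ∃ D E : Subgroup G, Bad D E := by
  have hbot : Solid (⊥ : Subgroup G) := by
    intro a ha x hx
    rw [Subgroup.mem_bot] at ha ⊢
    subst ha
    rw [mabs_one] at hx
    obtain ⟨h1, h2⟩ := mabs_le'.mp hx
    exact le_antisymm h1 (Left.inv_le_one_iff.mp h2)
  have hz : (b ^ 2 * a ^ 2)⁻¹ * (a * b) ⊔ 1 ∉ (⊥ : Subgroup G) := by
    rw [Subgroup.mem_bot, sup_eq_right, inv_mul_le_iff_le_mul, mul_one]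
    exact h
  obtain ⟨C, hC⟩ := exists_value hbot hz
  have hCle : ¬ LeMod C (a * b) (b ^ 2 * a ^ 2) := by
    rintro ⟨c, hc, hle⟩
    apply hC.not_mem
    rw [← inv_mul_le_iff_le_mul] at hle
    exact hC.solid.mem_of_le (hC.solid.sup_mem hc (one_mem C)) le_sup_right
      (sup_le_sup_right hle 1)
  have hs : a ⊔ b ∉ C := by
    intro hs
    have haC : a ∈ C := hC.solid.mem_of_le hs ha le_sup_left
    have hbC : b ∈ C := hC.solid.mem_of_le hs hb le_sup_right
    exact hCle ⟨(b ^ 2 * a ^ 2)⁻¹ * (a * b), mul_mem (inv_mem (mul_mem (pow_mem hbC 2)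
      (pow_mem haC 2))) (mul_mem haC hbC), by rw [mul_inv_cancel_left]⟩
  obtain ⟨D, hD⟩ := exists_value hC.solid hs
  let E := solidClosure ((D : Set G) ∪ {a ⊔ b})
  have hDE : D ≤ E := fun x hx => subset_solidClosure _ (Or.inl hx)
  have hsE : a ⊔ b ∈ E := subset_solidClosure _ (Or.inr rfl)
  have hE : Solid E := solid_solidClosure _
  have haE : a ∈ E := hE.mem_of_le hsE ha le_sup_left
  have hbE : b ∈ E := hE.mem_of_le hsE hb le_sup_right
  have hab : ¬ (a ∈ D ∧ b ∈ D) := fun hab => hD.not_mem (hD.solid.sup_mem hab.1 hab.2)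
  refine ⟨D, E, hD.solid, hD.prime, hE, hDE, ?_, ?_⟩
  · intro F hF hDF hFE
    by_cases hsF : a ⊔ b ∈ F
    · right
      refine le_antisymm hFE (solidClosure_le hF ?_)
      rintro x (hx | hx)
      · exact hDF hx
      · rw [Set.mem_singleton_iff] at hx
        rw [hx]; exact hsF
    · left
      exact hD.maximal F hF hDF hsF
  · by_contra hnorm
    push Not at hnorm
    have hconj : ∀ x ∈ E, ∀ c ∈ D, x⁻¹ * c * x ∈ D := by
      intro x hx c hc
      simpa using hnorm x⁻¹ (inv_mem hx) c hc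
    have hDpos : ∀ {x c : G}, 1 ≤ x → c ∈ D → x ≤ c → x ∈ D :=
      fun h1 hc hle => hD.solid.mem_of_le hc h1 hle
    rcases leMod_total hC.prime (a * b) (b ^ 2 * a ^ 2) with hle | hle
    · exact hCle hle
    · obtain ⟨e, he, hle⟩ := hle.mono hD.le
      rcases leMod_total hD.prime a b with ⟨c, hc, h1⟩ | ⟨c, hc, h1⟩
      · -- `a ≤ b c`
        by_cases haD : a ∈ D
        · apply hab
          refine ⟨haD, hDpos (c := (b⁻¹ * a * b) * e) hb (mul_mem (hconj b hbE a haD) he) ?_⟩
          have h2 : b * b ≤ b * ((b⁻¹ * a * b) * e) := by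
            calc b * b = b ^ 2 := (pow_two b).symm
              _ ≤ b ^ 2 * a ^ 2 := le_mul_of_one_le_right' (one_le_pow_of_one_le' ha 2)
              _ ≤ a * b * e := hle
              _ = b * ((b⁻¹ * a * b) * e) := by group
          exact le_of_mul_le_mul_left' h2
        · apply haD
          have h2 : b ^ 2 * a ^ 2 ≤ b ^ 2 * ((b⁻¹ * c * b) * e) := by
            calc b ^ 2 * a ^ 2 ≤ a * b * e := hle
              _ ≤ (b * c) * b * e := mul_le_mul_left (mul_le_mul_left h1 b) e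
              _ = b ^ 2 * ((b⁻¹ * c * b) * e) := by group
          have h3 : a ^ 2 ≤ (b⁻¹ * c * b) * e := le_of_mul_le_mul_left' h2
          refine hDpos ha (mul_mem (hconj b hbE c hc) he) (le_trans ?_ h3)
          rw [pow_two]
          exact le_mul_of_one_le_left' ha
      · -- `b ≤ a c`
        have h2 : b ^ 2 * a ^ 2 ≤ a ^ 2 * (c * e) := by
          calc b ^ 2 * a ^ 2 ≤ a * b * e := hle
            _ ≤ a * (a * c) * e := mul_le_mul_left (mul_le_mul_right h1 a) e
            _ = a ^ 2 * (c * e) := by simp only [pow_two, mul_assoc]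
        have h3 : b ^ 2 ≤ a ^ 2 * (c * e) * (a ^ 2)⁻¹ := by
          rwa [le_mul_inv_iff_mul_le]
        have hbD : b ∈ D := by
          refine hDpos hb (hnorm (a ^ 2) (pow_mem haE 2) (c * e) (mul_mem hc he))
            (le_trans ?_ h3)
          rw [pow_two]
          exact le_mul_of_one_le_left' hb
        apply hab
        refine ⟨?_, hbD⟩
        have h4 : a * a ≤ a * (b * e) := by
          calc a * a = a ^ 2 := (pow_two a).symm
            _ ≤ b ^ 2 * a ^ 2 := le_mul_of_one_le_left' (one_le_pow_of_one_le' hb 2)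
            _ ≤ a * b * e := hle
            _ = a * (b * e) := mul_assoc _ _ _
        exact hDpos ha (mul_mem hbD he) (le_of_mul_le_mul_left' h4)

theorem Bad.fails {D E : Subgroup G} (h : Bad D E)
    {N : Subgroup G} (hN : Solid N) (hnorm : N.Normal)
    {Y : Type} (q : LTerm Y × LTerm Y) {H' : Type v'} [LGroup H'] (y : Y → H')
    (hy : q.1.eval y ≠ q.2.eval y)
    (hq : ∀ g : Y → G, q.1.eval g * (q.2.eval g)⁻¹ ∈ N)
    {X : Type} (p : LTerm X × LTerm X) {H : Type u'} [LGroup H] (x : X → H)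
    (hx : p.1.eval x ≠ p.2.eval x) :
    ∃ g : X → G, (∀ j, g j ∈ N) ∧ p.1.eval g ≠ p.2.eval g := by
  let _ : LGroup E := solidLGroup E h.solidE
  have hmabs : ∀ k : E, ((|k|ₘ : E) : G) = |(k : G)|ₘ := fun k => rfl
  have hcoe : ∀ {Z : Type} (t : LTerm Z) (g : Z → E),
      ((t.eval g : E) : G) = t.eval (fun i => (g i : G)) :=
    fun t g => eval_map (fun k : E => (k : G)) rfl (fun _ _ => rfl) (fun _ => rfl)
      (fun _ _ => rfl) (fun _ _ => rfl) g t
  have hsub : ∀ {F : Subgroup G}, Solid F → Solid (F.subgroupOf E) := by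
    intro F hF a ha k hk
    rw [Subgroup.mem_subgroupOf] at ha ⊢
    refine hF _ ha _ ?_
    rw [← hmabs, ← hmabs]
    exact hk
  have hC : Solid (D.subgroupOf E) := hsub h.solidD
  have hP : PrimeSub (D.subgroupOf E) := by
    intro z
    rcases h.primeD (z : G) with hz | hz
    · left
      rw [Subgroup.mem_subgroupOf]
      exact hz
    · right
      rw [Subgroup.mem_subgroupOf]
      exact hz
  obtain ⟨T, i1, i2, α, i3, i4, hstab, -⟩ := exists_chain (D.subgroupOf E) hC hP
  have hmax : MaxStab E α := by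
    intro F hF hle
    rw [hstab] at hle ⊢
    have hFmap : Solid (F.map E.subtype) := by
      rintro _ ⟨a, ha, rfl⟩ k hk
      have hkE : k ∈ E := h.solidE _ a.2 k hk
      refine ⟨⟨k, hkE⟩, hF a ha _ ?_, rfl⟩
      exact hk
    rcases h.maximal (F.map E.subtype) hFmap
      (fun d hd => ⟨⟨d, h.le hd⟩, hle (Subgroup.mem_subgroupOf.mpr hd), rfl⟩)
      (by rintro _ ⟨a, -, rfl⟩; exact a.2) with h1 | h1
    · left
      ext k
      rw [Subgroup.mem_subgroupOf, ← h1]
      constructor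
      · exact fun hk => ⟨k, hk, rfl⟩
      · rintro ⟨k', hk', hkk⟩
        have : k' = k := Subtype.ext hkk
        rwa [← this]
    · right
      rw [eq_top_iff]
      intro k _
      have : (k : G) ∈ F.map E.subtype := by rw [h1]; exact k.2
      obtain ⟨k', hk', hkk⟩ := this
      have : k' = k := Subtype.ext hkk
      rwa [← this]
  obtain ⟨x₀, hx₀, c₀, hc₀, hnot⟩ := h.not_normal
  have hc₀stab : (⟨c₀, h.le hc₀⟩ : E) ∈ stabilizer E α := by
    rw [hstab, Subgroup.mem_subgroupOf]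
    exact hc₀
  have hmove : (⟨c₀, h.le hc₀⟩ : E) • ((⟨x₀, hx₀⟩ : E)⁻¹ • α) ≠ (⟨x₀, hx₀⟩ : E)⁻¹ • α := by
    intro hcon
    apply hnot
    have : (⟨x₀, hx₀⟩ : E) * ⟨c₀, h.le hc₀⟩ * (⟨x₀, hx₀⟩ : E)⁻¹ ∈ stabilizer E α := by
      rw [mem_stabilizer_iff, mul_smul, mul_smul, hcon, smul_inv_smul]
    rw [hstab, Subgroup.mem_subgroupOf] at this
    exact this
  obtain ⟨β₀, h0, g', hg', hg'β⟩ := exists_moved_above hmax hc₀stab hmove
  have h2 := orb_twoTrans hmax h0
  have hβ₀ : β₀ ∈ orb E α β₀ := ⟨1, one_mem _, one_smul _ _⟩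
  obtain ⟨g, δ, hδ, hgstab, hgδ⟩ := h2.fails hβ₀ hg' hg'β q y hy
  have hν : q.1.eval g * (q.2.eval g)⁻¹ ∈ N.subgroupOf E := by
    rw [Subgroup.mem_subgroupOf]
    have := hq (fun i => (g i : G))
    rw [← hcoe, ← hcoe] at this
    exact this
  have hνstab : q.1.eval g * (q.2.eval g)⁻¹ ∈ stabilizer E α :=
    mul_mem ((solid_stabilizer α).eval_mem hgstab _)
      (inv_mem ((solid_stabilizer α).eval_mem hgstab _))
  have h3 := normal_twoTrans h2 (hsub hN) (hnorm.subgroupOf E) hν hνstab hδ hgδ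
  obtain ⟨k, δ', -, hkN, hkδ⟩ := h3.fails hδ (show _ ∈ N.subgroupOf E ⊓ stabilizer E α from
    ⟨hν, hνstab⟩) hgδ p x hx
  refine ⟨fun j => (k j : G), fun j => Subgroup.mem_subgroupOf.mp (hkN j).1, fun hcon => ?_⟩
  rw [← hcoe, ← hcoe] at hcon
  have : p.1.eval k = p.2.eval k := Subtype.ext hcon
  rw [this, mul_inv_cancel, one_smul] at hkδ
  exact hkδ rfl

end sub

end Pool.Agent.LGroupRank
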